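import Pool.Agent.P.MP_224820_co.St.All

/-! The chain of levels with an exposed layer `A` and target graph `W`. -/

set_option autoImplicit false

namespace Pool.Agent.P.MP_224820_co.St

open Finset

theorem ht_chain (V : Type) [Fintype V] [DecidableEq V] (J : ℕ) (a b : ℕ → Finset (Sym2 V))
    (G0 Ab W : Finset (Sym2 V)) (A : Finset (Finset V))
    (haa : ∀ i ≤ J, ∀ j ≤ J, i ≠ j → Disjoint (a i) (a j))
    (hbb : ∀ i < J, ∀ j < J, i ≠ j → Disjoint (b i) (b j))
    (hab : ∀ i ≤ J, ∀ j < J, Disjoint (a i) (b j))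
    (hGa : ∀ i ≤ J, Disjoint G0 (a i) ∧ Disjoint Ab (a i))
    (hGb : ∀ j < J, Disjoint G0 (b j) ∧ Disjoint Ab (b j)) (hGA : Disjoint G0 Ab)
    (hKN : W = G0 ∪ Ab ∪ (range (J + 1)).biUnion a ∪ (range J).biUnion b)
    (hDv : Dv W) (hAbs : Absorbs Ab (a J))
    (h g : Finset V → ℝ) (hl : ℕ → Finset V → ℝ) (hg0 : ∀ t, 0 ≤ g t) (hl0 : ∀ i t, 0 ≤ hl i t)
    (hsum : ∀ t, g t + ∑ i ∈ range J, hl i t ≤ h t) (δ0 δ1 : ℝ) (hδ1 : 0 ≤ δ1)
    (h0 : Pr (hz g) (fun T => ¬ ∃ U ⊆ a 0, Dec (A ∪ T) (G0 ∪ U)) ≤ δ0)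
    (hstep : ∀ i < J, ∀ A' ⊆ a i,
      Pr (hz (hl i)) (fun T => ¬ ∃ U ⊆ a (i + 1), Dec T (A' ∪ b i ∪ U)) ≤ δ1) :
    Pr (hz h) (fun T => ¬ Dec (A ∪ (T ∪ tri (Ab ∪ a J))) W) ≤ δ0 + J * δ1 := by
  have da : ∀ k j, k ≤ j → j ≤ J → Disjoint (chainD a b G0 k) (a j) := by
    intro k j hkj hj
    rw [disjoint_left]
    intro e he hj'
    rcases chain_mem.1 he with h1 | ⟨i, hi, h1⟩ | ⟨i, hi, h1⟩
    · exact disjoint_left.1 (hGa j hj).1 h1 hj'
    · exact disjoint_left.1 (haa i (by omega) j hj (by omega)) h1 hj'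
    · exact disjoint_left.1 (hab j hj i (by omega)) hj' h1
  have db : ∀ k, k < J → Disjoint (chainD a b G0 k) (b k) := by
    intro k hk
    rw [disjoint_left]
    intro e he hj'
    rcases chain_mem.1 he with h1 | ⟨i, hi, h1⟩ | ⟨i, hi, h1⟩
    · exact disjoint_left.1 (hGb k hk).1 h1 hj'
    · exact disjoint_left.1 (hab i (by omega) k hk) h1 hj'
    · exact disjoint_left.1 (hbb i (by omega) k hk (by omega)) h1 hj'
  have dA : Disjoint (chainD a b G0 J) Ab := by
    rw [disjoint_left]
    intro e he hj'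
    rcases chain_mem.1 he with h1 | ⟨i, hi, h1⟩ | ⟨i, hi, h1⟩
    · exact disjoint_left.1 hGA h1 hj'
    · exact disjoint_left.1 (hGa i hi.le).2 hj' h1
    · exact disjoint_left.1 (hGb i hi).2 hj' h1
  have inc : ∀ k, Incr (fun T : Finset (Finset V) => ∃ U ⊆ a k, Dec (A ∪ T) (chainD a b G0 k ∪ U)) :=
    fun k R R' hR ⟨U, hU, hD⟩ => ⟨U, hU, Dec_mono (union_subset_union_right hR) hD⟩
  have main : ∀ k, k ≤ J → ∀ h' : Finset V → ℝ, (∀ t, g t + ∑ i ∈ range k, hl i t ≤ h' t) →
      Pr (hz h') (fun T => ¬ ∃ U ⊆ a k, Dec (A ∪ T) (chainD a b G0 k ∪ U)) ≤ δ0 + k * δ1 := by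
    intro k
    induction k with
    | zero =>
      intro _ h' hh
      have := (all_TWO (Finset V) _ (fun T => ¬ ∃ U ⊆ a 0, Dec (A ∪ T) (G0 ∪ U)) (inc 0) δ0 0 le_rfl).2
        h' g (fun _ => 0) hg0 (fun _ => le_rfl) (fun t => by simpa using hh t) h0
        (fun Q hQ => by
          refine le_of_eq (Pr_false _ fun R hR => hR ?_)
          obtain ⟨U, hU, hD⟩ := not_not.1 hQ
          refine ⟨U, hU, Dec_mono (union_subset_union_right subset_union_left) ?_⟩
          simpa [chainD] using hD)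
      simpa using this
    | succ k ih =>
      intro hk h' hh
      have hk' : k < J := hk
      have hnn : ∀ t, 0 ≤ g t + ∑ i ∈ range k, hl i t :=
        fun t => add_nonneg (hg0 t) (sum_nonneg fun i _ => hl0 i t)
      have := (all_TWO (Finset V) _ (fun T => ¬ ∃ U ⊆ a k, Dec (A ∪ T) (chainD a b G0 k ∪ U)) (inc (k + 1))
        (δ0 + k * δ1) δ1 hδ1).2 h' (fun t => g t + ∑ i ∈ range k, hl i t) (hl k) hnn (hl0 k)
        (fun t => by have := hh t; rw [sum_range_succ] at this; linarith)
        (ih hk'.le _ fun _ => le_rfl)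
        (fun Q hQ => by
          obtain ⟨U, hU, hD⟩ := not_not.1 hQ
          refine le_trans (Pr_mono (hz_isP (hl0 k)) fun R hR => ?_) (hstep k hk' (a k \ U) sdiff_subset)
          rintro ⟨U', hU', hD'⟩
          refine hR ⟨U', hU', ?_⟩
          have e1 : chainD a b G0 (k + 1) ∪ U'
              = (chainD a b G0 k ∪ U) ∪ (a k \ U ∪ b k ∪ U') := by
            rw [chain_succ]
            ext e
            simp only [mem_union, mem_sdiff]
            have := @hU e
            tauto
          rw [e1]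
          refine Dec_union ?_ (Dec_mono (union_subset_union_right subset_union_left) hD)
            (Dec_mono (subset_union_right.trans subset_union_right) hD')
          rw [disjoint_left]
          intro e h1 h2
          simp only [mem_union, mem_sdiff] at h1 h2
          rcases h1 with h1 | h1
          · rcases h2 with (h2 | h2) | h2
            · exact disjoint_left.1 (da k k le_rfl hk'.le) h1 h2.1
            · exact disjoint_left.1 (db k hk') h1 h2
            · exact disjoint_left.1 (da k (k + 1) (Nat.le_succ k) hk) h1 (hU' h2)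
          · rcases h2 with (h2 | h2) | h2
            · exact h2.2 h1
            · exact disjoint_left.1 (hab k hk'.le k hk') (hU h1) h2
            · exact disjoint_left.1 (haa k hk'.le (k + 1) hk (by omega)) (hU h1) (hU' h2))
      push_cast
      linarith
  have hh0 : ∀ t, 0 ≤ h t :=
    fun t => le_trans (add_nonneg (hg0 t) (sum_nonneg fun i _ => hl0 i t)) (hsum t)
  refine le_trans (Pr_mono (hz_isP hh0) fun T hT => ?_) (main J le_rfl h hsum)
  rintro ⟨U, hU, hD⟩
  apply hT
  have hK : W = (chainD a b G0 J ∪ U) ∪ (Ab ∪ a J \ U) := by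
    rw [hKN, range_add_one, biUnion_insert]
    ext e
    simp only [chainD, mem_union, mem_sdiff]
    have := @hU e
    tauto
  have hdis : Disjoint (chainD a b G0 J ∪ U) (Ab ∪ a J \ U) := by
    rw [disjoint_left]
    intro e h1 h2
    simp only [mem_union, mem_sdiff] at h1 h2
    rcases h1 with h1 | h1
    · rcases h2 with h2 | h2
      · exact disjoint_left.1 dA h1 h2
      · exact disjoint_left.1 (da J J le_rfl le_rfl) h1 h2.1
    · rcases h2 with h2 | h2
      · exact disjoint_left.1 hAbs.2.1 h2 (hU h1)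
      · exact h2.2 h1
  have d1 : Dv (Ab ∪ a J \ U) := by
    have := Dv_sdiff hDv (Dec_dv hD) (by rw [hK]; exact subset_union_left)
    rwa [hK, union_sdiff_cancel_left hdis] at this
  have d2 : Dv Ab := by
    have := Dec_dv (hAbs.2.2 ∅ (empty_subset _) chain_dv_empty)
    rwa [union_empty] at this
  have d3 : Dv (a J \ U) := by
    have := Dv_sdiff d1 d2 subset_union_left
    rwa [union_sdiff_cancel_left (hAbs.2.1.mono_right sdiff_subset)] at this
  rw [hK]
  exact Dec_union hdis (Dec_mono (union_subset_union_right subset_union_left) hD)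
    (Dec_mono (subset_union_right.trans subset_union_right) (hAbs.2.2 _ sdiff_subset d3))

end Pool.Agent.P.MP_224820_co.St
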