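import Pool.Agent.P.MP_224820_co.Main
import Pool.Agent.P.MP_224820_co.St.All

/-! Conditioning the labels on the first layer and on the order of the labels in an exposed set. -/

set_option autoImplicit false

namespace Pool.Agent.P.MP_224820_co.St

open Finset MeasureTheory unitInterval

variable {ι : Type} [Fintype ι] [DecidableEq ι]

omit [DecidableEq ι] in
theorem ht_pi (c : ι → Set I) :
    (lab ι).real (Set.pi Set.univ c) = ∏ t, (volume : Measure I).real (c t) := by
  rw [measureReal_def, Measure.pi_pi, ENNReal.toReal_prod]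
  rfl

omit [DecidableEq ι] in
theorem ht_prod (s : ι → Prop) [DecidablePred s] (X : Set (ι → I))
    (hX : ∀ U U' : ι → I, (∀ t, s t → U t = U' t) → U ∈ X → U' ∈ X) (c : ι → Set I)
    (hc : ∀ t, s t → c t = Set.univ) :
    (lab ι).real (X ∩ Set.pi Set.univ c) = (lab ι).real X * ∏ t, (volume : Measure I).real (c t) := by
  have hm := measurePreserving_piEquivPiSubtypeProd (fun _ : ι => (volume : Measure I)) s
  set e := MeasurableEquiv.piEquivPiSubtypeProd (fun _ : ι => I) s with he
  set X1 : Set (Subtype s → I) := {y | (fun t => if h : s t then y ⟨t, h⟩ else 0) ∈ X} with hX1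
  have k : ∀ U : ι → I, (e U).1 ∈ X1 ↔ U ∈ X := fun U =>
    ⟨hX _ _ fun t ht => by simp [ht, he], hX _ _ fun t ht => by simp [ht, he]⟩
  have h1 : X = e ⁻¹' (X1 ×ˢ Set.univ) := by
    ext U
    simp [k]
  have h2 : X ∩ Set.pi Set.univ c =
      e ⁻¹' (X1 ×ˢ Set.pi Set.univ fun t : {t // ¬ s t} => c t) := by
    ext U
    simp only [Set.mem_inter_iff, Set.mem_preimage, Set.mem_prod, k, Set.mem_pi, Set.mem_univ,
      true_imp_iff]
    refine and_congr_right fun _ => ⟨fun h t => h t, fun h t => ?_⟩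
    by_cases ht : s t
    · rw [hc t ht]; trivial
    · exact h ⟨t, ht⟩
  have h3 : ∏ t, (volume : Measure I).real (c t)
      = ∏ t : {t // ¬ s t}, (volume : Measure I).real (c t) := by
    rw [← Fintype.prod_subtype_mul_prod_subtype s, prod_eq_one, one_mul]
    intro t _
    rw [hc t t.2, probReal_univ]
  rw [h2, h3]
  nth_rewrite 1 [h1]
  rw [measureReal_def, measureReal_def, hm.measure_preimage_equiv, hm.measure_preimage_equiv,
    Measure.prod_prod, Measure.prod_prod, Measure.pi_pi, measure_univ, mul_one, ENNReal.toReal_mul,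
    ENNReal.toReal_prod]
  rfl

/-- the coordinates with label at most `a` -/
noncomputable def htKp (U : ι → I) (a : ℝ) : Finset ι := univ.filter fun t => (U t : ℝ) ≤ a

/-- the order of the labels on `s` -/
noncomputable def htOrd (s : Finset ι) (U : ι → I) : Finset (ι × ι) :=
  (s ×ˢ s).filter fun x => U x.1 ≤ U x.2

omit [DecidableEq ι] in
theorem ht_mem_kp {U : ι → I} {a : ℝ} {t : ι} : t ∈ htKp U a ↔ (U t : ℝ) ≤ a := by simp [htKp]

theorem ht_cond {a p : ℝ} (a0 : 0 ≤ a) (ap : a ≤ p) (p1 : p ≤ 1) (a1 : a < 1)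
    (s : Finset ι → Finset ι) (F : Finset ι → Finset (ι × ι) → Finset ι → Prop)
    (φ : Finset ι → ℝ) (φ0 : ∀ A, 0 ≤ φ A)
    (h : ∀ A O, Pr (fun t => if t ∈ A ∪ s A then 0 else (p - a) / (1 - a)) (F A O) ≤ φ A) :
    (lab ι).real {U | F (htKp U a) (htOrd (s (htKp U a)) U) (htKp U p \ (htKp U a ∪ s (htKp U a)))}
      ≤ Ex (fun _ => a) φ := by
  classical
  set q := (p - a) / (1 - a) with hq
  have hq1 : (1 - a) * q = p - a := by rw [hq]; field_simp [(sub_pos.2 a1).ne']
  have q0 : 0 ≤ q := div_nonneg (by linarith) (by linarith)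
  have q1 : q ≤ 1 := by rw [hq, div_le_one (by linarith)]; linarith
  set X : Finset ι → Finset (ι × ι) → Set (ι → I) := fun A O =>
    {U | (∀ t ∈ s A, ((U t : ℝ) ≤ a ↔ t ∈ A)) ∧ htOrd (s A) U = O} with hX
  set c : Finset ι → Finset ι → ι → Set I := fun A B t =>
    if t ∈ s A then Set.univ else if t ∈ A then {x | (x : ℝ) ≤ a} else
      if t ∈ B then {x | (x : ℝ) ≤ p} \ {x | (x : ℝ) ≤ a} else {x | (x : ℝ) ≤ p}ᶜ with hc
  set Y : Finset ι → ℝ := fun A => ∏ t, if t ∈ s A then 1 else if t ∈ A then a else 1 - a with hY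
  set Z : Finset ι → ℝ := fun A => ∏ t, if t ∈ s A then (if t ∈ A then a else 1 - a) else 1 with hZ
  have Y0 : ∀ A, 0 ≤ Y A := fun A => prod_nonneg fun t _ => by split_ifs <;> linarith
  have va := vol_le a0 a1.le
  have vp := vol_le (a0.trans ap) p1
  have sub : {U | F (htKp U a) (htOrd (s (htKp U a)) U) (htKp U p \ (htKp U a ∪ s (htKp U a)))} ⊆
      ⋃ A, ⋃ O, ⋃ B, if F A O B ∧ Disjoint B (A ∪ s A) then X A O ∩ Set.pi Set.univ (c A B)
        else ∅ := by
    intro U hU
    refine Set.mem_iUnion.2 ⟨htKp U a, Set.mem_iUnion.2 ⟨htOrd (s (htKp U a)) U,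
      Set.mem_iUnion.2 ⟨htKp U p \ (htKp U a ∪ s (htKp U a)), ?_⟩⟩⟩
    rw [if_pos ⟨hU, sdiff_disjoint⟩]
    refine ⟨⟨fun t _ => ht_mem_kp.symm, rfl⟩, fun t _ => ?_⟩
    simp only [hc, mem_sdiff, mem_union, ht_mem_kp]
    split_ifs with h1 h2 h3
    · trivial
    · exact h2
    · exact ⟨h3.1, h2⟩
    · exact fun h4 => h3 ⟨h4, fun h5 => h5.elim h2 h1⟩
  have hB : ∀ A O B, (lab ι).real (if F A O B ∧ Disjoint B (A ∪ s A) then
      X A O ∩ Set.pi Set.univ (c A B) else ∅) ≤ (lab ι).real (X A O) * Y A *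
        ((∏ t, if t ∈ B then (if t ∈ A ∪ s A then 0 else q) else 1 - if t ∈ A ∪ s A then 0 else q) *
          if F A O B then 1 else 0) := by
    intro A O B
    by_cases hF : F A O B ∧ Disjoint B (A ∪ s A)
    · rw [if_pos hF, if_pos hF.1, mul_one, mul_assoc, ht_prod (· ∈ s A) (X A O) ?_ (c A B)
        fun t ht => if_pos ht, hY, ← prod_mul_distrib]
      · refine le_of_eq (congrArg _ (prod_congr rfl fun t _ => ?_))
        have hd : t ∈ B → ¬ (t ∈ A ∨ t ∈ s A) := fun h1 h2 =>
          disjoint_left.1 hF.2 h1 (mem_union.2 h2)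
        simp only [hc, mem_union]
        by_cases h1 : t ∈ s A
        · have h3 : t ∉ B := fun h => hd h (Or.inr h1)
          simp [h1, h3]
        by_cases h2 : t ∈ A
        · have h3 : t ∉ B := fun h => hd h (Or.inl h2)
          simp only [h1, h2, h3, if_true, if_false, va, true_or]
          ring
        by_cases h3 : t ∈ B
        · simp only [h1, h2, h3, if_true, if_false, or_self]
          have h4 : {x : I | (x : ℝ) ≤ a} ⊆ {x : I | (x : ℝ) ≤ p} := fun x hx => le_trans hx ap
          rw [measureReal_sdiff h4 (meas_le a), va, vp, hq1]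
        · simp only [h1, h2, h3, if_false, or_self]
          rw [probReal_compl_eq_one_sub (meas_le p), vp]
          linarith
      · rintro U U' hU ⟨h1, h2⟩
        refine ⟨fun t ht => by rw [← hU t ht]; exact h1 t ht, ?_⟩
        rw [← h2]
        refine filter_congr fun x hx => ?_
        rw [hU _ (mem_product.1 hx).1, hU _ (mem_product.1 hx).2]
    · rw [if_neg hF, measureReal_empty]
      refine mul_nonneg (mul_nonneg measureReal_nonneg (Y0 A)) (mul_nonneg
        (prod_nonneg fun t _ => ?_) ?_) <;> split_ifs <;> linarith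
  have hO : ∀ A, ∑ O, (lab ι).real (X A O) ≤ Z A := by
    intro A
    rw [← measureReal_iUnion_fintype]
    · refine (lab_mono (T := Set.pi Set.univ fun t => if t ∈ s A then
        (if t ∈ A then {x : I | (x : ℝ) ≤ a} else {x : I | (x : ℝ) ≤ a}ᶜ) else Set.univ) ?_).trans ?_
      · intro U hU t _
        obtain ⟨O, h1, -⟩ := Set.mem_iUnion.1 hU
        dsimp only
        split_ifs with h2 h3
        · exact (h1 t h2).2 h3
        · exact fun h4 => h3 ((h1 t h2).1 h4)
        · trivial
      · rw [ht_pi]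
        refine le_of_eq (prod_congr rfl fun t _ => ?_)
        split_ifs
        · exact va
        · rw [probReal_compl_eq_one_sub (meas_le a), va]
        · exact probReal_univ
    · intro O O' hne
      exact Set.disjoint_left.2 fun U h1 h2 => hne (h1.2.symm.trans h2.2)
    · intro O
      have m1 : ∀ t, Measurable fun U : ι → I => (U t : ℝ) ≤ a := fun t =>
        measurableSet_setOfPred.1
          (measurableSet_le (measurable_subtype_coe.comp (measurable_pi_apply t)) measurable_const)
      have m2 : ∀ x : ι × ι, Measurable fun U : ι → I => U x.1 ≤ U x.2 := fun x =>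
        measurableSet_setOfPred.1
          (measurableSet_le (measurable_pi_apply x.1) (measurable_pi_apply x.2))
      simp only [hX, Finset.ext_iff, htOrd, mem_filter]
      exact measurableSet_setOfPred.2 (Measurable.and
        (Measurable.forall fun t => Measurable.forall fun _ => (m1 t).iff measurable_const)
        (Measurable.forall fun x => (measurable_const.and (m2 x)).iff measurable_const))
  refine (lab_mono sub).trans ((measureReal_iUnion_fintype_le _).trans ?_)
  unfold Ex
  refine sum_le_sum fun A _ => ?_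
  have e1 : (∏ t, if t ∈ A then a else 1 - a) = Z A * Y A := by
    rw [hZ, hY, ← prod_mul_distrib]
    refine prod_congr rfl fun t _ => ?_
    split_ifs <;> ring
  rw [e1, mul_assoc]
  refine le_trans ?_ (mul_le_mul_of_nonneg_right (hO A) (mul_nonneg (Y0 A) (φ0 A)))
  rw [sum_mul]
  refine (measureReal_iUnion_fintype_le _).trans (sum_le_sum fun O _ => ?_)
  refine (measureReal_iUnion_fintype_le _).trans ((sum_le_sum fun B _ => hB A O B).trans ?_)
  rw [← mul_sum, ← mul_assoc]
  refine mul_le_mul_of_nonneg_left (le_trans (le_of_eq ?_) (h A O))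
    (mul_nonneg measureReal_nonneg (Y0 A))
  rw [Pr_eq]
  rfl

theorem ht_emb {α : Type} [Fintype α] [DecidableEq α] (j : ι ↪ α) {p : α → ℝ} (hp : IsP p)
    (h0 : ∀ x, p x ≠ 0 → ∃ t, j t = x) (f : Finset α → ℝ) :
    Ex (fun t => p (j t)) (fun A => f (A.map j)) ≤ Ex p f := by
  rw [← Ex_emb j p fun A => f (A.map j)]
  refine Ex_mono_ae hp fun R hR _ => le_of_eq (congrArg f ?_)
  ext x
  simp only [mem_map, mem_filter, mem_univ, true_and]
  constructor
  · rintro ⟨t, h1, rfl⟩
    exact h1
  · intro hx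
    obtain ⟨t, rfl⟩ := h0 x (hR x hx)
    exact ⟨t, hx, rfl⟩

end Pool.Agent.P.MP_224820_co.St
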