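import Pool.Agent.P.MP_224820_co.St.All

/-! Edge classes stay typical after removing a graph of maximum degree two. -/

set_option autoImplicit false

namespace Pool.Agent.P.MP_224820_co.St

open Finset Filter Topology

section
variable {V : Type} [Fintype V] [DecidableEq V] {r : ℕ}

/-- the marks off `D` -/
def htRm (ξ : Finset (Fin r × Sym2 V)) (D : Finset (Sym2 V)) : Finset (Fin r × Sym2 V) :=
  ξ.filter fun x => x.2 ∉ D

theorem ht_cls (ξ : Finset (Fin r × Sym2 V)) (D : Finset (Sym2 V)) (k : Fin r) :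
    Cls (htRm ξ D) k = Cls ξ k \ D := by
  ext e
  simp only [Finset.mem_sdiff, goodc_mem, htRm, mem_filter]
  constructor
  · rintro ⟨a, ⟨b, c⟩, d⟩
    exact ⟨⟨a, b, fun k' hk h => d k' hk ⟨h, c⟩⟩, c⟩
  · rintro ⟨⟨a, b, d⟩, c⟩
    exact ⟨a, ⟨b, c⟩, fun k' hk h => d k' hk h.1⟩

/-- a sharper lower bound for the counts -/
def htLo (π : Fin r → ℝ) (ξ : Finset (Fin r × Sym2 V)) : Prop :=
  ∀ l : Finset (V × Fin r), Set.InjOn Prod.fst (l : Set (V × Fin r)) → l.card ≤ 4 →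
    (Fintype.card V : ℝ) ^ (1 / 100 : ℝ) ≤ Fintype.card V * ∏ x ∈ l, π x.2 →
    993 / 1000 * (Fintype.card V * ∏ x ∈ l, π x.2) ≤ (cc ξ l : ℝ)

theorem ht_good {π : Fin r → ℝ} {ξ : Finset (Fin r × Sym2 V)} {D : Finset (Sym2 V)}
    (hG : Good π ξ) (hL : htLo π ξ) (hD : ∀ v, (nb D v).card ≤ 2)
    (hn : 3000 ≤ (Fintype.card V : ℝ) ^ (1 / 100 : ℝ)) : Good π (htRm ξ D) := by
  intro l h1 h2 h3
  have a1 := (abs_le.1 (hG l h1 h2 h3)).2
  have a2 := hL l h1 h2 h3
  have a3 : cc (htRm ξ D) l ≤ cc ξ l := by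
    unfold cc
    refine card_le_card fun w hw => ?_
    simp only [mem_filter, mem_univ, true_and, ht_cls, Finset.mem_sdiff] at hw ⊢
    exact fun x hx => (hw x hx).1
  have a4 : cc ξ l ≤ cc (htRm ξ D) l + 8 := by
    have b1 : (univ.filter fun w => ∀ x ∈ l, s(x.1, w) ∈ Cls ξ x.2) ⊆
        (univ.filter fun w => ∀ x ∈ l, s(x.1, w) ∈ Cls (htRm ξ D) x.2) ∪
          l.biUnion fun x => nb D x.1 := by
      intro w hw
      simp only [mem_filter, mem_univ, true_and, ht_cls, Finset.mem_sdiff, mem_union, mem_biUnion,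
        mem_nb] at hw ⊢
      by_contra hc
      rw [not_or] at hc
      exact hc.1 fun x hx => ⟨hw x hx, fun h => hc.2 ⟨x, hx, h⟩⟩
    have b2 : (l.biUnion fun x => nb D x.1).card ≤ 8 := by
      refine card_biUnion_le.trans ((sum_le_card_nsmul _ _ 2 fun x _ => hD x.1).trans ?_)
      rw [smul_eq_mul]
      omega
    unfold cc
    exact (card_le_card b1).trans ((card_union_le _ _).trans (Nat.add_le_add_left b2 _))
  have a5 : (cc (htRm ξ D) l : ℝ) ≤ cc ξ l := by exact_mod_cast a3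
  have a6 : (cc ξ l : ℝ) ≤ cc (htRm ξ D) l + 8 := by exact_mod_cast a4
  rw [abs_le]
  constructor <;> linarith

theorem ht_styp (π : Fin r → ℝ) (hπ : IsP π) (hs : ∑ k, π k ≤ 1 / 1000)
    (hn : 4000 ≤ Fintype.card V) (l : Finset (V × Fin r))
    (hl : Set.InjOn Prod.fst (l : Set (V × Fin r))) (h4 : l.card ≤ 4) :
    Pr (fun x : Fin r × Sym2 V => π x.1)
      (fun ξ => (cc ξ l : ℝ) < 993 / 1000 * (Fintype.card V * ∏ x ∈ l, π x.2))
      ≤ Real.exp (-(Fintype.card V * ∏ x ∈ l, π x.2) / 10 ^ 6) := by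
  classical
  have hp : IsP (fun x : Fin r × Sym2 V => π x.1) := fun a => hπ a.1
  set J : Finset V := univ \ l.image Prod.fst with hJ
  set E : V → Finset (Fin r × Sym2 V) → Prop := fun w ξ => ∀ x ∈ l, s(x.1, w) ∈ Cls ξ x.2 with hE
  set s : V → Finset (Fin r × Sym2 V) := fun w => univ.filter fun a => ∃ x ∈ l, a.2 = s(x.1, w)
    with hsdef
  have hJm : ∀ w ∈ J, w ∉ l.image Prod.fst := fun w hw => (Finset.mem_sdiff.1 hw).2
  have hdis : (J : Set V).PairwiseDisjoint s := by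
    intro w hw w' hw' hne
    show Disjoint (s w) (s w')
    rw [disjoint_left]
    intro a ha hb
    obtain ⟨x, hx, e1⟩ := (mem_filter.1 ha).2
    obtain ⟨y, hy, e2⟩ := (mem_filter.1 hb).2
    rw [e1] at e2
    rcases Sym2.eq_iff.1 e2 with ⟨_, h⟩ | ⟨h, _⟩
    · exact hne h
    · exact hJm w' (mem_coe.1 hw') (mem_image.2 ⟨x, hx, h⟩)
  have hloc : ∀ w ∈ J, Loc (s w) (E w) := by
    intro w _ R R' hR
    have key : ∀ x ∈ l, ∀ k : Fin r, (k, s(x.1, w)) ∈ R ↔ (k, s(x.1, w)) ∈ R' := by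
      intro x hx k
      have hm : (k, s(x.1, w)) ∈ s w := mem_filter.2 ⟨mem_univ _, x, hx, rfl⟩
      constructor
      · intro h
        have : (k, s(x.1, w)) ∈ R ∩ s w := mem_inter.2 ⟨h, hm⟩
        rw [hR] at this
        exact (mem_inter.1 this).1
      · intro h
        have : (k, s(x.1, w)) ∈ R' ∩ s w := mem_inter.2 ⟨h, hm⟩
        rw [← hR] at this
        exact (mem_inter.1 this).1
    apply propext
    refine forall_congr' fun x => forall_congr' fun hx => ?_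
    unfold Cls
    rw [mem_filter, mem_filter, key x hx]
    refine and_congr_right fun _ => and_congr_right fun _ => ?_
    refine forall_congr' fun k' => forall_congr' fun _ => ?_
    rw [key x hx]
  have hcc : ∀ ξ : Finset (Fin r × Sym2 V), cnt J (fun w => E w ξ) ≤ cc ξ l := by
    intro ξ
    unfold cc
    rw [← cnt_eq]
    exact cnt_mono fun w _ h => ⟨mem_univ _, h⟩
  set P : ℝ := ∏ x ∈ l, π x.2 with hP
  have hP0 : 0 ≤ P := prod_nonneg fun x _ => (hπ x.2).1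
  set n : ℝ := (Fintype.card V : ℝ) with hndef
  have hn' : (4000 : ℝ) ≤ n := by rw [hndef]; exact_mod_cast hn
  have hJ2 : n - 4 ≤ (J.card : ℝ) := by
    have h1 : Fintype.card V ≤ J.card + 4 := by
      have h2 : (univ : Finset V).card ≤ J.card + (l.image Prod.fst).card :=
        card_le_card_sdiff_add_card
      have h3 : (l.image Prod.fst).card ≤ l.card := card_image_le
      rw [card_univ] at h2
      omega
    have h2 : n ≤ (J.card : ℝ) + 4 := by rw [hndef]; exact_mod_cast h1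
    linarith
  have hlo : 995 / 1000 * (n * P) ≤ ∑ w ∈ J, Pr (fun x : Fin r × Sym2 V => π x.1) (E w) := by
    calc 995 / 1000 * (n * P) ≤ J.card * (996 / 1000 * P) := by
          have : 995 / 1000 * n ≤ 996 / 1000 * (J.card : ℝ) := by linarith
          nlinarith
      _ = ∑ _w ∈ J, 996 / 1000 * P := by rw [sum_const, nsmul_eq_mul]
      _ ≤ _ := sum_le_sum fun w hw => (styp_pr π hπ hs l hl h4 w (hJm w hw)).1
  set M : ℝ := n * P with hM
  have hM0 : 0 ≤ M := mul_nonneg (by linarith) hP0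
  have hB := (all_CH _ V _ hp J s E hdis hloc (1 / 1000) (995 / 1000 * M) (993 / 1000 * M)
    (by norm_num)).2 hlo
  have eB : 1 / 1000 * (993 / 1000 * M) - 995 / 1000 * M * (1 - Real.exp (-(1 / 1000)))
      ≤ -M / 10 ^ 6 := by
    have h := styp_exp_neg_le (1 / 1000) (by norm_num) (by norm_num)
    have h2 : M * (1 / 1000 - (1 / 1000) ^ 2) ≤ M * (1 - Real.exp (-(1 / 1000))) :=
      mul_le_mul_of_nonneg_left (by linarith) hM0
    nlinarith
  refine le_trans (Pr_mono hp fun R h => ?_) (hB.trans (Real.exp_le_exp.2 eB))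
  have : (cnt J (fun w => E w R) : ℝ) ≤ cc R l := by exact_mod_cast hcc R
  linarith

end

theorem ht_loP {δ : ℝ} (hδ : 0 < δ) : ∃ n0 : ℕ, ∀ (V : Type) [Fintype V] [DecidableEq V],
    n0 ≤ Fintype.card V → ∀ (r : ℕ) (π : Fin r → ℝ), r ≤ Fintype.card V → IsP π →
    ∑ k, π k ≤ 1 / 1000 → Pr (fun x : Fin r × Sym2 V => π x.1) (fun ξ => ¬ htLo π ξ) ≤ δ := by
  obtain ⟨n0, hn0⟩ := goodp_lim hδ
  refine ⟨max n0 4000, fun V _ _ hn r π hr hπ hs => ?_⟩
  classical
  have hn1 : n0 ≤ Fintype.card V := (le_max_left _ _).trans hn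
  have hn2 : 4000 ≤ Fintype.card V := (le_max_right _ _).trans hn
  have hP : IsP (fun x : Fin r × Sym2 V => π x.1) := fun x => hπ x.1
  set J : Finset (Finset (V × Fin r)) := univ.filter fun l => l.card ≤ 4 ∧
    Set.InjOn Prod.fst (l : Set (V × Fin r)) ∧
    (Fintype.card V : ℝ) ^ (1 / 100 : ℝ) ≤ Fintype.card V * ∏ x ∈ l, π x.2 with hJ
  have hJc : J.card ≤ 5 * (Fintype.card V ^ 2) ^ 4 := by
    refine le_trans (card_le_card fun l hl => ?_)
      (goodp_card (α := V × Fin r) (Nat.one_le_pow _ _ (by omega)) ?_)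
    · exact mem_filter.2 ⟨mem_univ _, (mem_filter.1 hl).2.1⟩
    · rw [Fintype.card_prod, Fintype.card_fin, sq]
      exact Nat.mul_le_mul_left _ hr
  have hJr : (J.card : ℝ) ≤ 5 * (Fintype.card V : ℝ) ^ 8 := by
    rw [← pow_mul] at hJc
    exact_mod_cast hJc
  refine (Pr_mono hP (E' := fun ξ => ∃ l ∈ J,
      (cc ξ l : ℝ) < 993 / 1000 * (Fintype.card V * ∏ x ∈ l, π x.2)) fun ξ hξ => ?_).trans ?_
  · unfold htLo at hξ
    push Not at hξ
    obtain ⟨l, h1, h2, h3, h4⟩ := hξ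
    exact ⟨l, mem_filter.2 ⟨mem_univ _, h2, h1, h3⟩, h4⟩
  refine (Pr_exists_le' hP J _
    (δ := 2 * Real.exp (-(Fintype.card V : ℝ) ^ (1 / 100 : ℝ) / 10 ^ 6)) fun l hl => ?_).trans ?_
  · obtain ⟨h1, h2, h3⟩ := (mem_filter.1 hl).2
    refine (ht_styp π hπ hs hn2 l h2 h1).trans ?_
    have h4 : Real.exp (-(Fintype.card V * ∏ x ∈ l, π x.2) / 10 ^ 6)
        ≤ Real.exp (-(Fintype.card V : ℝ) ^ (1 / 100 : ℝ) / 10 ^ 6) := by gcongr
    linarith [Real.exp_pos (-(Fintype.card V : ℝ) ^ (1 / 100 : ℝ) / 10 ^ 6)]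
  · exact (mul_le_mul_of_nonneg_right hJr (by positivity)).trans (hn0 _ hn1)

end Pool.Agent.P.MP_224820_co.St
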