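import Pool.Agent.P.MP_224820_co.Ht.Cond

/-! Pairs of low degree in the first layer are few and far apart. -/

set_option autoImplicit false

namespace Pool.Agent.P.MP_224820_co.St

open Finset MeasureTheory unitInterval

variable {V : Type} [Fintype V] [DecidableEq V]

/-- the triangles on a pair -/
def htS (e : Sym2 V) : Finset (Tri V) := univ.filter fun T => e ∈ ed T.1

theorem ht_mem_S {e : Sym2 V} {T : Tri V} : T ∈ htS e ↔ e ∈ ed T.1 := by simp [htS]

/-- the pairs of low degree -/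
noncomputable def htLw (c : ℝ) (A : Finset (Tri V)) : Finset (Sym2 V) :=
  (KN V).filter fun e => ((htS e ∩ A).card : ℝ) ≤ c

theorem ht_card_S {e : Sym2 V} (he : e ∈ KN V) : (Fintype.card V : ℝ) - 2 ≤ (htS e).card := by
  induction e using Sym2.ind with
  | _ u v =>
  have huv : u ≠ v := fun h => mem_KN.1 he (Sym2.mk_isDiag_iff.2 h)
  have h1 := card_tri_at (V := V) ⟨{u, v}, card_pair huv⟩
  have h2 : htS s(u, v) = univ.filter fun T : Tri V => ({u, v} : Finset V) ⊆ T.1 := by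
    ext T
    simp [ht_mem_S, mk_mem_ed, huv, insert_subset_iff]
  have h3 : Fintype.card V ≤ (htS s(u, v)).card + 2 := by
    rw [h2, h1]
    omega
  have h4 : (Fintype.card V : ℝ) ≤ (htS s(u, v)).card + 2 := by exact_mod_cast h3
  linarith

theorem ht_exp5 : (99 / 100 : ℝ) ≤ 1 - Real.exp (-5) := by
  have e1 : Real.exp 5 = Real.exp 1 ^ 5 := by rw [← Real.exp_nat_mul]; norm_num
  have e2 : (100 : ℝ) ≤ Real.exp 5 := by
    rw [e1]
    exact le_trans (by norm_num) (pow_le_pow_left₀ (by norm_num) Real.exp_one_gt_d9.le 5)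
  have e3 : Real.exp (-5) ≤ 100⁻¹ := by
    rw [Real.exp_neg]
    exact inv_anti₀ (by norm_num) e2
  linarith

theorem ht_few {a c d : ℝ} (a0 : 0 ≤ a) (a1 : a < 1) (hd : 0 < d) (hn : 2 ≤ Fintype.card V) :
    (lab (Tri V)).real {U | d < (htLw c (htKp U a)).card} ≤ (Fintype.card V : ℝ) ^ 2 *
      Real.exp (5 * c - 99 / 100 * (a * (Fintype.card V - 2))) / d := by
  classical
  have hp : IsP (fun _ : Tri V => a) := fun _ => ⟨a0, a1.le⟩
  have f0 : ∀ A : Finset (Tri V),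
      0 ≤ d⁻¹ * ∑ e ∈ KN V, if ((htS e ∩ A).card : ℝ) ≤ c then (1 : ℝ) else 0 := fun A =>
    mul_nonneg (inv_nonneg.2 hd.le) (sum_nonneg fun e _ => by split_ifs <;> norm_num)
  refine (ht_cond a0 le_rfl a1.le a1 (fun _ => ∅) (fun A _ _ => d < (htLw c A).card) _ f0
    fun A _ => ?_).trans ?_
  · by_cases h : d < (htLw c A).card
    · refine (Pr_le_one (fun t => by simp) _).trans ?_
      rw [sum_boole, le_inv_mul_iff₀ hd, mul_one]
      exact h.le
    · rw [Pr_false _ fun _ => h]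
      exact f0 A
  rw [Ex_mul, Ex_sum, div_eq_inv_mul]
  refine mul_le_mul_of_nonneg_left ?_ (inv_nonneg.2 hd.le)
  have h2 : (2 : ℝ) ≤ Fintype.card V := by exact_mod_cast hn
  refine (sum_le_card_nsmul _ _ (Real.exp (5 * c - 99 / 100 * (a * (Fintype.card V - 2))))
    fun e he => ?_).trans ?_
  · rw [← Pr_eq]
    refine ((all_CH1 _ _ hp (htS e) 5 (a * (Fintype.card V - 2)) c (by norm_num)).2 ?_).trans
      (Real.exp_le_exp.2 ?_)
    · rw [sum_const, nsmul_eq_mul, mul_comm]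
      exact mul_le_mul_of_nonneg_right (ht_card_S he) a0
    · have := mul_le_mul_of_nonneg_left ht_exp5 (mul_nonneg a0 (sub_nonneg.2 h2))
      linarith
  · rw [nsmul_eq_mul]
    exact mul_le_mul_of_nonneg_right (by exact_mod_cast card_sym2_le _) (Real.exp_pos _).le

theorem ht_two {a b c : ℝ} (a0 : 0 ≤ a) (a1 : a ≤ 1) (b0 : 0 ≤ b) (b1 : b ≤ 1) (T T' : Tri V)
    (e e' : Sym2 V) :
    (lab (Tri V)).real {U | e ≠ e' ∧ (U T : ℝ) ≤ b ∧ (U T' : ℝ) ≤ b ∧ e ∈ htLw c (htKp U a) ∧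
      e' ∈ htLw c (htKp U a)} ≤ ((if T' = T then 1 else 0) + b ^ 2) *
        Real.exp (10 * c - 99 / 100 * (a * (2 * Fintype.card V - 7))) := by
  classical
  by_cases h : e ≠ e' ∧ e ∈ KN V ∧ e' ∈ KN V
  swap
  · refine (lab_mono (T := ∅) fun U hU => h ⟨hU.1, (mem_filter.1 hU.2.2.2.1).1,
      (mem_filter.1 hU.2.2.2.2).1⟩).trans ?_
    rw [measureReal_empty]
    split_ifs <;> positivity
  obtain ⟨hne, he, he'⟩ := h
  refine le_trans (lab_mono ?_) ((lower_tail {T, T'} (fun t => t ∈ htS e ∪ htS e') a0 a1 b0 b1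
    (s := 5) (by norm_num) (by norm_num) ht_exp5 (2 * c)).trans ?_)
  · rintro U ⟨-, h1, h2, h3, h4⟩
    refine ⟨by simp [h1, h2], ?_⟩
    have k1 := (mem_filter.1 h3).2
    have k2 := (mem_filter.1 h4).2
    have k3 : c1 (fun t => t ∈ htS e ∪ htS e' ∧ (U t : ℝ) ≤ a) ≤
        c1 (fun t => t ∈ htS e ∩ htKp U a) + c1 (fun t => t ∈ htS e' ∩ htKp U a) :=
      c1_le_add fun t ht => by
        simp only [mem_union, mem_inter, ht_mem_kp] at ht ⊢
        tauto
    rw [c1_mem, c1_mem] at k3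
    linarith
  · have k1 : (htS e ∩ htS e').card ≤ 1 := card_le_one.2 fun t ht t' ht' => Subtype.ext
      (eq_of_two_edges t.2 t'.2 hne (ht_mem_S.1 (mem_inter.1 ht).1) (ht_mem_S.1 (mem_inter.1 ht).2)
        (ht_mem_S.1 (mem_inter.1 ht').1) (ht_mem_S.1 (mem_inter.1 ht').2))
    have k2 : (htS e).card + (htS e').card ≤ (htS e ∪ htS e').card + 1 := by
      rw [← card_union_add_card_inter]
      omega
    have k3 : ((htS e).card : ℝ) + (htS e').card ≤ (htS e ∪ htS e').card + 1 := by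
      exact_mod_cast k2
    have k4 : ((({T, T'} : Finset (Tri V)).card : ℕ) : ℝ) ≤ 2 := by exact_mod_cast card_le_two
    rw [c1_mem]
    refine mul_le_mul ?_ (Real.exp_le_exp.2 ?_) (Real.exp_pos _).le (by split_ifs <;> positivity)
    · split_ifs with h
      · exact (pow_le_one₀ b0 b1).trans (le_add_of_nonneg_right (by positivity))
      · rw [card_pair (Ne.symm h), zero_add]
    · have k5 : a * (2 * Fintype.card V - 7) ≤
          a * (((htS e ∪ htS e').card : ℝ) - (({T, T'} : Finset (Tri V)).card : ℕ)) :=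
        mul_le_mul_of_nonneg_left (by linarith [ht_card_S he, ht_card_S he']) a0
      linarith

theorem ht_near (T : Tri V) :
    (univ.filter fun T' : Tri V => ¬ Disjoint T.1 T'.1).card ≤ 3 * Fintype.card V ^ 2 := by
  have h1 : (univ.filter fun T' : Tri V => ¬ Disjoint T.1 T'.1) ⊆
      T.1.biUnion fun x => univ.filter fun T' : Tri V => ({x} : Finset V) ⊆ T'.1 := by
    intro T' hT
    obtain ⟨x, h1, h2⟩ := not_disjoint_iff.1 (mem_filter.1 hT).2
    exact mem_biUnion.2 ⟨x, h1, mem_filter.2 ⟨mem_univ _, singleton_subset_iff.2 h2⟩⟩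
  refine (card_le_card h1).trans (card_biUnion_le.trans
    ((sum_le_card_nsmul _ _ (Fintype.card V ^ 2) fun x _ => ?_).trans ?_))
  · rw [card_super 3 {x} (by simp), card_singleton]
    exact (Nat.choose_le_pow _ _).trans (Nat.pow_le_pow_left (Nat.sub_le _ _) _)
  · rw [T.2, smul_eq_mul]

theorem ht_far {a b c : ℝ} (a0 : 0 ≤ a) (a1 : a ≤ 1) (b0 : 0 ≤ b) (b1 : b ≤ 1) :
    (lab (Tri V)).real {U | ∃ T T' : Tri V, ¬ Disjoint T.1 T'.1 ∧ ∃ e ∈ ed T.1, ∃ e' ∈ ed T'.1,
      e ≠ e' ∧ (U T : ℝ) ≤ b ∧ (U T' : ℝ) ≤ b ∧ e ∈ htLw c (htKp U a) ∧ e' ∈ htLw c (htKp U a)} ≤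
      (Fintype.card V : ℝ) ^ 3 * (9 * (1 + 3 * (Fintype.card V * b) ^ 2) *
        Real.exp (10 * c - 99 / 100 * (a * (2 * Fintype.card V - 7)))) := by
  classical
  set X := Real.exp (10 * c - 99 / 100 * (a * (2 * Fintype.card V - 7))) with hX
  have X0 : 0 ≤ X := (Real.exp_pos _).le
  refine (lab_mono (T := ⋃ T ∈ (univ : Finset (Tri V)),
    ⋃ T' ∈ univ.filter (fun T' : Tri V => ¬ Disjoint T.1 T'.1), ⋃ e ∈ ed T.1, ⋃ e' ∈ ed T'.1,
      {U | e ≠ e' ∧ (U T : ℝ) ≤ b ∧ (U T' : ℝ) ≤ b ∧ e ∈ htLw c (htKp U a) ∧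
        e' ∈ htLw c (htKp U a)}) ?_).trans ?_
  · rintro U ⟨T, T', h1, e, h2, e', h3, h4⟩
    simp only [Set.mem_iUnion]
    exact ⟨T, mem_univ _, T', mem_filter.2 ⟨mem_univ _, h1⟩, e, h2, e', h3, h4⟩
  refine (measureReal_biUnion_finset_le _ _).trans ((sum_le_card_nsmul _ _
    (9 * (1 + 3 * (Fintype.card V * b) ^ 2) * X) fun T _ => ?_).trans ?_)
  · refine (measureReal_biUnion_finset_le _ _).trans ((sum_le_sum
      (g := fun T' => 9 * X * ((if T' = T then 1 else 0) + b ^ 2)) fun T' _ => ?_).trans ?_)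
    · refine (measureReal_biUnion_finset_le _ _).trans ((sum_le_card_nsmul _ _
        (3 * (((if T' = T then 1 else 0) + b ^ 2) * X)) fun e _ => ?_).trans (le_of_eq ?_))
      · refine (measureReal_biUnion_finset_le _ _).trans ((sum_le_card_nsmul _ _ _
          fun e' _ => ht_two a0 a1 b0 b1 T T' e e').trans (le_of_eq ?_))
        rw [card_ed T'.2, nsmul_eq_mul, Nat.cast_ofNat]
      · rw [card_ed T.2, nsmul_eq_mul, Nat.cast_ofNat]
        ring
    · rw [← mul_sum, sum_add_distrib, sum_const, nsmul_eq_mul, sum_ite_eq']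
      have h1 : ((univ.filter fun T' : Tri V => ¬ Disjoint T.1 T'.1).card : ℝ)
        ≤ 3 * (Fintype.card V : ℝ) ^ 2 := by exact_mod_cast ht_near T
      have h2 := mul_le_mul_of_nonneg_right h1 (sq_nonneg b)
      have h3 : (if T ∈ univ.filter fun T' : Tri V => ¬ Disjoint T.1 T'.1 then (1 : ℝ) else 0)
        ≤ 1 := by split_ifs <;> norm_num
      nlinarith
  · rw [nsmul_eq_mul, card_univ]
    exact mul_le_mul_of_nonneg_right (by exact_mod_cast card_tri_le) (by positivity)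

end Pool.Agent.P.MP_224820_co.St
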