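import Pool.Agent.P.MP_224820_co.Ht.Top

/-! Decomposing the complete graph minus an admissible graph, given an exposed layer. -/

set_option autoImplicit false

namespace Pool.Agent.P.MP_224820_co.St

open Finset Filter Topology

theorem ht_evt {V : Type} [Fintype V] [DecidableEq V] (A : Finset (Finset V)) (G : Finset (Sym2 V))
    (e : Sym2 V) (T : Finset (Finset V)) (h : Dec (A ∪ T) G) :
    Dec (A ∪ T.filter fun y => e ∉ ed3 y) G ∨
      ∃ y ∈ T, e ∈ ed3 y ∧ Dec (A ∪ insert y (T.filter fun y => e ∉ ed3 y)) G := by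
  obtain ⟨K, hK, h3, hu⟩ := h
  by_cases hy : ∃ y ∈ K, y ∈ T ∧ e ∈ ed3 y
  · obtain ⟨y, hyK, hyT, hy⟩ := hy
    refine Or.inr ⟨y, hyT, hy, K, fun t ht => ?_, h3, hu⟩
    rcases mem_union.1 (hK ht) with h | h
    · exact mem_union_left _ h
    refine mem_union_right _ ?_
    by_cases het : e ∈ ed3 t
    · have e1 : e ∈ ed t := by simpa [ed3, (h3 t ht).1] using het
      have e2 : e ∈ ed y := by simpa [ed3, (h3 y hyK).1] using hy
      have := (hu e ((h3 t ht).2 e1)).unique ⟨ht, e1⟩ ⟨hyK, e2⟩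
      rw [this]
      exact mem_insert_self _ _
    · exact mem_insert_of_mem (mem_filter.2 ⟨h, het⟩)
  · refine Or.inl ⟨K, fun t ht => ?_, h3, hu⟩
    rcases mem_union.1 (hK ht) with h | h
    · exact mem_union_left _ h
    · exact mem_union_right _ (mem_filter.2 ⟨h, fun k => hy ⟨t, ht, h, k⟩⟩)

theorem ht_loc {V : Type} [Fintype V] [DecidableEq V] (A : Finset (Finset V)) (G : Finset (Sym2 V))
    {R R' : Finset (Finset V)} (h : R ∩ (tri G \ A) = R' ∩ (tri G \ A)) (hD : Dec (A ∪ R) G) :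
    Dec (A ∪ R') G := by
  obtain ⟨K, hK, h3, hu⟩ := hD
  refine ⟨K, fun t ht => ?_, h3, hu⟩
  by_cases hA : t ∈ A
  · exact mem_union_left _ hA
  · have h1 : t ∈ R ∩ (tri G \ A) := mem_inter.2 ⟨(mem_union.1 (hK ht)).resolve_left hA,
      Finset.mem_sdiff.2 ⟨mem_tri.2 (h3 t ht), hA⟩⟩
    rw [h] at h1
    exact mem_union_right _ (mem_inter.1 h1).1

theorem ht_ev (k : ℕ) {c δ : ℝ} (hc : 0 < c) (hδ : 0 < δ) :
    ∀ᶠ n : ℕ in atTop, Real.log n ^ k * Real.exp (-(c * Real.log n)) ≤ δ := by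
  have h := ((tendsto_rpow_mul_exp_neg_mul_atTop_nhds_zero k c hc).comp ht_tlog).eventually
    (ge_mem_nhds hδ)
  filter_upwards [h] with n hn
  simpa [Real.rpow_natCast] using hn

theorem ht_one {δ : ℝ} (hδ : 0 < δ) (hδ1 : δ ≤ 1) : ∃ n0 : ℕ, ∀ n : ℕ, n0 ≤ n →
    (n % 6 = 1 ∨ n % 6 = 3) → ∃ ψ : Finset (Finset (Fin n)) → ℝ, (∀ A, 0 ≤ ψ A) ∧
      (∀ p : Finset (Fin n) → ℝ, IsP p → (∀ t, p t ≤ 2 * Real.log n / n) → Ex p ψ ≤ 6 * δ) ∧
      ∀ A D, htAdm n A D → ∀ p : Finset (Fin n) → ℝ, IsP p →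
        (∀ t ∈ tri (KN (Fin n) \ D), t ∉ A → 1 / 20 * Real.log n / n ≤ p t) →
        Pr p (fun T => ¬ Dec (A ∪ T) (KN (Fin n) \ D)) ≤ ψ A := by
  obtain ⟨ε, hε⟩ : ∃ ε : ℝ, ε = 1 / 20 := ⟨_, rfl⟩
  have ε0 : 0 < ε := by rw [hε]; norm_num
  have ε1 : ε ≤ 1 := by rw [hε]; norm_num
  rw [← hε]
  obtain ⟨n1, h1⟩ := ht_top ε0 ε1 hδ hδ1
  obtain ⟨n2, h2⟩ := all_ABSX ε δ ε0 ε1 hδ
  obtain ⟨n3, h3⟩ := all_GOODP δ hδ
  obtain ⟨n4, h4⟩ := all_PAR
  obtain ⟨n5, h5⟩ := all_NUMT ε ε0 ε1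
  obtain ⟨n6, h6⟩ := ht_loP hδ
  obtain ⟨n7, h7⟩ := eventually_atTop.1 (ht_ev 1 (c := 1 / 4) (by norm_num) (pow_pos hδ 3))
  refine ⟨n1 + n2 + n3 + n4 + n5 + n6 + n7, fun n hn hmod => ?_⟩
  obtain ⟨J, x0, hP⟩ := h4 n (by omega)
  have hT := h5 n (by omega) J x0 hP
  obtain ⟨s0, s1, s2, s3⟩ := all_SIG n J x0 ε ε0 hT
  obtain ⟨ψ, ψ0, ψ1, ψ2⟩ := h1 n (by omega) hmod J x0 hP
  have hlog : 0 ≤ Real.log n := by linarith [hT.log1]
  have hn0 : (0 : ℝ) < n := by exact_mod_cast (show 0 < n by have := hT.cls; omega)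
  have hl0 : 0 ≤ ε / 2 * Real.log n / n := by positivity
  have hsum : 0 ≤ ∑ l, lamL n J x0 (ε / 260) l := sum_nonneg fun l _ => s3 l
  have hIs : IsP (fun x : Fin (2 * J + 2) × Sym2 (Fin n) => piK n J x0 (ε / 260) x.1) :=
    fun x => hT.isP x.1
  refine ⟨fun A => 5 * δ + Ex (fun x : Fin (2 * J + 2) × Sym2 (Fin n) => piK n J x0 (ε / 260) x.1)
    (fun ξ => ψ ξ A), fun A => add_nonneg (by linarith) (Ex_nonneg hIs fun ξ => ψ0 ξ A),
    fun p hp hpa => ?_, fun A D hD p hp hq => ?_⟩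
  · rw [Ex_add, Ex_const, Ex_comm]
    have := (Ex_mono hIs (g := fun _ => δ) fun ξ => ψ1 ξ p hp hpa).trans (Ex_const _ _).le
    linarith
  set W := KN (Fin n) \ D with hW
  set p' : Finset (Fin n) → ℝ := fun t => if t ∈ tri W \ A then p t else 1 with hp'
  have hp1 : IsP p' := fun t => by
    simp only [hp']
    split_ifs
    exacts [hp t, ⟨zero_le_one, le_rfl⟩]
  have e1 : Pr p (fun T => ¬ Dec (A ∪ T) W) = Pr p' (fun T => ¬ Dec (A ∪ T) W) := by
    refine Ex_loc (s := tri W \ A) (fun R R' h => ?_) fun t ht => by simp only [hp', if_pos ht]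
    have : Dec (A ∪ R) W ↔ Dec (A ∪ R') W := ⟨ht_loc A W h, ht_loc A W h.symm⟩
    by_cases h1 : Dec (A ∪ R) W
    · simp [h1, this.1 h1]
    · simp [h1, mt this.2 h1]
  have hρ0 := pow_nonneg hT.rho0.le 3
  have hρ1 := pow_le_one₀ (n := 3) hT.rho0.le hT.rho1
  have key := all_TRANS (Fin (2 * J + 2)) (Sym2 (Fin n)) (Finset (Fin n)) (Option (Fin J))
    (piK n J x0 (ε / 260)) hT.isP (sig n J x0 (ε / 260)) s0 s1 (LsK J) (rho n (ε / 260))
    hT.rho0 hT.rho1 s2 ed3 one_card (ε / 2 * Real.log n / n) (lamL n J x0 (ε / 260))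
    hl0 s3 (fun T => Dec (A ∪ T) W) (fun R R' h hD => Dec_mono (union_subset_union_right h) hD)
    (fun e T h => ht_evt A W e T h) p' hp1 (fun t => by
      simp only [hp']
      split_ifs with ht
      · refine one_exp hρ0 hρ1 (add_nonneg hl0 hsum) (le_trans ?_
          (hq t (Finset.mem_sdiff.1 ht).1 (Finset.mem_sdiff.1 ht).2))
        have b1 := hT.budget
        have b2 : (2 + ε) * Real.log n / n - (2 + ε / 2) * Real.log n / n
          = ε * Real.log n / n - ε / 2 * Real.log n / n := by ring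
        linarith
      · rw [sub_self]
        exact mul_nonneg (Real.exp_pos _).le (by linarith))
  rw [e1]
  refine key.trans ?_
  have hz0 : ∀ ξ : Finset (Fin (2 * J + 2) × Sym2 (Fin n)),
      IsP (hz (hzs (ε / 2 * Real.log n / n) (lamL n J x0 (ε / 260))
        (sig n J x0 (ε / 260)) ed3 ξ)) := fun ξ => hz_isP fun t =>
    add_nonneg hl0 (sum_nonneg fun l _ => mul_nonneg (s3 l) (prod_nonneg fun e _ => s0 l _))
  have k1 := Ex_le_bad hIs (fun ξ => (¬ Good (piK n J x0 (ε / 260)) ξ ∨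
      ¬ htLo (piK n J x0 (ε / 260)) ξ) ∨
      (¬ ∃ A ⊆ sl ξ (kB J J), Absorbs A (KN (Fin n) ∩ sl ξ (kA J J))) ∨
      ∃ e ∈ D, (kA J J, e) ∈ ξ ∨ (kB J J, e) ∈ ξ)
    (f := fun ξ => Pr (hz (hzs (ε / 2 * Real.log n / n) (lamL n J x0 (ε / 260))
      (sig n J x0 (ε / 260)) ed3 ξ)) (fun T => ¬ Dec (A ∪ (T ∪ sure (LsK J) ed3 ξ)) W) - ψ ξ A) hδ.le
    (fun ξ => (sub_le_self _ (ψ0 ξ A)).trans (Pr_le_one (hz0 ξ) _))
    (fun ξ hξ => by
      simp only [not_or, not_not, not_exists, not_and] at hξ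
      have := ψ2 ξ A D hξ.1.1 hξ.1.2 (by simpa using hξ.2.1) hξ.2.2 hD
      linarith)
  rw [Ex_sub] at k1
  have a1 := h3 (Fin n) (by rw [Fintype.card_fin]; omega) (2 * J + 2) (piK n J x0 (ε / 260))
    (by rw [Fintype.card_fin]; exact hT.cls) hT.isP hT.sum1
  have a2 := h6 (Fin n) (by rw [Fintype.card_fin]; omega) (2 * J + 2) (piK n J x0 (ε / 260))
    (by rw [Fintype.card_fin]; exact hT.cls) hT.isP hT.sum1
  have a3 := h2 n (by omega) J x0 hP
  have a4 := Pr_exists_le' hIs D (fun e ξ => (kA J J, e) ∈ ξ ∨ (kB J J, e) ∈ ξ)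
    (δ := rho n (ε / 260) / 4) fun e _ => by
    refine (Pr_or_le hIs _ _).trans ?_
    rw [Pr_mem, Pr_mem]
    dsimp only
    rw [hT.piA J le_rfl, hT.piC]
    linarith [hT.xrho]
  have a5 : Real.exp (Real.log n / 4) * rho n (ε / 260) ≤ δ := by
    refine le_of_pow_le_pow_left₀ (n := 3) (by norm_num) hδ.le (le_trans ?_ (h7 n (by omega)))
    have b1 : rho n (ε / 260) ^ 3 = ε / 260 * Real.log n / n := by
      rw [rho, ← Real.rpow_natCast, ← Real.rpow_mul (by positivity)]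
      norm_num
    have b2 : Real.exp (Real.log n / 4) ^ 3 = n * Real.exp (-(1 / 4 * Real.log n)) := by
      rw [← Real.exp_nat_mul]
      nth_rewrite 2 [← Real.exp_log hn0]
      rw [← Real.exp_add]
      congr 1
      push_cast
      ring
    rw [mul_pow, b1, b2, pow_one]
    have b3 : n * Real.exp (-(1 / 4 * Real.log n)) * (ε / 260 * Real.log n / n)
        = ε / 260 * (Real.log n * Real.exp (-(1 / 4 * Real.log n))) := by field_simp
    rw [b3]
    exact mul_le_of_le_one_left (by positivity) (by linarith)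
  have a6 : (D.card : ℝ) * (rho n (ε / 260) / 4) ≤ δ := by
    have := mul_le_mul_of_nonneg_right hD.card hT.rho0.le
    nlinarith
  have a7 := (Pr_or_le hIs _ _).trans (add_le_add ((Pr_or_le hIs _ _).trans (add_le_add a1 a2))
    ((Pr_or_le hIs _ _).trans (add_le_add a3 (a4.trans a6))))
  dsimp only
  linarith

end Pool.Agent.P.MP_224820_co.St
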