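import Pool.Agent.P.MP_224820_co.Ht.Low
import Pool.Agent.P.MP_224820_co.Ht.One

/-! The hitting time theorem. -/

set_option autoImplicit false

namespace Pool.Agent.P.MP_224820_co.St

open Finset MeasureTheory unitInterval Filter Topology

section
variable {V : Type} [Fintype V] [DecidableEq V]

/-- forgetting that a triangle has three vertices -/
def htJ (V : Type) : Tri V ↪ Finset V := Function.Embedding.subtype _

open Classical in
/-- the triangles on pairs of low degree -/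
noncomputable def htEx (c : ℝ) (A : Finset (Tri V)) : Finset (Tri V) :=
  univ.filter fun T => ∃ e ∈ htLw c A, e ∈ ed T.1

open Classical in
/-- a first triangle on `e` for the order `O` -/
noncomputable def htFst (O : Finset (Tri V × Tri V)) (e : Sym2 V) : Finset V :=
  if h : ∃ T : Tri V, e ∈ ed T.1 ∧ ∀ T' : Tri V, e ∈ ed T'.1 → (T, T') ∈ O then h.choose.1 else ∅

/-- the edges of the first triangles on the pairs of low degree -/
noncomputable def htD (c : ℝ) (A : Finset (Tri V)) (O : Finset (Tri V × Tri V)) :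
    Finset (Sym2 V) := ((htLw c A).image (htFst O)).biUnion ed

theorem ht_star_card (e : Sym2 V) (A : Finset (Tri V)) :
    (htStar e ∩ A.map (htJ V)).card = (htS e ∩ A).card := by
  rw [← card_map (htJ V)]
  congr 1
  ext t
  simp only [mem_inter, ht_mem_star, Finset.mem_map, ht_mem_S]
  constructor
  · rintro ⟨⟨-, h2⟩, T, h3, rfl⟩
    exact ⟨T, ⟨h2, h3⟩, rfl⟩
  · rintro ⟨T, ⟨h2, h3⟩, rfl⟩
    exact ⟨⟨T.2, h2⟩, T, h3, rfl⟩

theorem ht_fst (U : Tri V → I) {c p : ℝ} {A : Finset (Tri V)} {e : Sym2 V} (he : e ∈ htLw c A)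
    (hp : Covers (kept U p)) :
    ∃ T : Tri V, T.1 = htFst (htOrd (htEx c A) U) e ∧ e ∈ ed T.1 ∧ (U T : ℝ) ≤ p := by
  classical
  obtain ⟨T0, h0, h1⟩ : ∃ T0 : Tri V, e ∈ ed T0.1 ∧ (U T0 : ℝ) ≤ p := by
    have hK := (Finset.mem_filter.1 he).1
    induction e using Sym2.ind with
    | _ u v =>
    have huv : u ≠ v := fun h => mem_KN.1 hK (Sym2.mk_isDiag_iff.2 h)
    obtain ⟨T, h1, h2⟩ := hp {u, v} (card_pair huv)
    exact ⟨T, mk_mem_ed.2 ⟨h2 (by simp), h2 (by simp), huv⟩, h1⟩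
  have hm : ∀ T : Tri V, e ∈ ed T.1 → T ∈ htEx c A := fun T h =>
    Finset.mem_filter.2 ⟨mem_univ _, e, he, h⟩
  have h : ∃ T : Tri V, e ∈ ed T.1 ∧ ∀ T' : Tri V, e ∈ ed T'.1 → (T, T') ∈ htOrd (htEx c A) U := by
    obtain ⟨T, a, b⟩ := exists_min_image (htS e) U ⟨T0, ht_mem_S.2 h0⟩
    exact ⟨T, ht_mem_S.1 a, fun T' h' => Finset.mem_filter.2
      ⟨mem_product.2 ⟨hm T (ht_mem_S.1 a), hm T' h'⟩, b T' (ht_mem_S.2 h')⟩⟩
  refine ⟨h.choose, by unfold htFst; rw [dif_pos h], h.choose_spec.1, le_trans ?_ h1⟩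
  exact (Finset.mem_filter.1 (h.choose_spec.2 T0 h0)).2

end

theorem ht_det {n : ℕ} (U : Tri (Fin n) → I) {a p1 b p : ℝ} (hap : a ≤ p1)
    (hp : Covers (kept U p)) (h1 : ¬ Covers (kept U p1)) (hb : Covers (kept U b))
    (h3 : ¬ Real.exp (Real.log n / 4) < (htLw (Real.log n / 200) (htKp U a)).card)
    (h4 : ¬ ∃ T T' : Tri (Fin n), ¬ Disjoint T.1 T'.1 ∧ ∃ e ∈ ed T.1, ∃ e' ∈ ed T'.1,
      e ≠ e' ∧ (U T : ℝ) ≤ b ∧ (U T' : ℝ) ≤ b ∧ e ∈ htLw (Real.log n / 200) (htKp U a) ∧
        e' ∈ htLw (Real.log n / 200) (htKp U a))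
    (h5 : ¬ (htAdm n ((htKp U a).map (htJ _)) (htD (Real.log n / 200) (htKp U a)
        (htOrd (htEx (Real.log n / 200) (htKp U a)) U)) ∧
      ¬ Dec ((htKp U a).map (htJ _) ∪
        (htKp U p1 \ (htKp U a ∪ htEx (Real.log n / 200) (htKp U a))).map (htJ _))
        (KN (Fin n) \ htD (Real.log n / 200) (htKp U a)
          (htOrd (htEx (Real.log n / 200) (htKp U a)) U)))) :
    ∃ S : Finset (Tri (Fin n)), (∀ T ∈ S, (U T : ℝ) ≤ p) ∧
      ∀ e : Finset (Fin n), e.card = 2 → ∃! T, T ∈ S ∧ e ⊆ T.1 := by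
  classical
  set c := Real.log n / 200 with hc
  set A := htKp U a with hA
  set O := htOrd (htEx c A) U with hO
  set K := (htLw c A).image (htFst O) with hK
  have hp1 : p1 ≤ p := by
    by_contra h
    exact h1 (hp.mono (kept_mono U (not_le.1 h).le))
  have K3 : ∀ t ∈ K, t.card = 3 := by
    intro t ht
    obtain ⟨e, he, rfl⟩ := mem_image.1 ht
    obtain ⟨T, k, -⟩ := ht_fst U he hb
    exact k ▸ T.2
  have Kv : ∀ t ∈ K, ∀ t' ∈ K, t ≠ t' → Disjoint t t' := by
    intro t ht t' ht' hne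
    obtain ⟨e, he, rfl⟩ := mem_image.1 ht
    obtain ⟨e', he', rfl⟩ := mem_image.1 ht'
    obtain ⟨T, k1, k2, k3⟩ := ht_fst U he hb
    obtain ⟨T', k4, k5, k6⟩ := ht_fst U he' hb
    by_contra h
    exact h4 ⟨T, T', by rwa [k1, k4], e, k2, e', k5, fun h => hne (by rw [h]), k3, k6, he, he'⟩
  have Ke : ∀ t ∈ K, ∀ t' ∈ K, t ≠ t' → Disjoint (ed t) (ed t') := by
    intro t ht t' ht' hne
    refine disjoint_left.2 fun e k1 k2 => ?_
    induction e using Sym2.ind with
    | _ u v => exact disjoint_left.1 (Kv t ht t' ht' hne) (mk_mem_ed.1 k1).1 (mk_mem_ed.1 k2).1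
  have hDK : Dec K (htD c A O) := Dec_biUnion subset_rfl K3 Ke
  have hsub : htD c A O ⊆ KN (Fin n) := fun e he => by
    obtain ⟨t, -, k⟩ := mem_biUnion.1 he
    exact mem_KN.2 (Finset.mem_filter.1 k).2
  have adm : htAdm n (A.map (htJ _)) (htD c A O) := by
    refine ⟨hsub, fun v => ?_, Dec_dv hDK, ?_, fun e he h => ?_⟩
    · have k1 : (K.filter fun t => v ∈ t).card ≤ 1 := card_le_one.2 fun t ht t' ht' => by
        by_contra hne
        exact disjoint_left.1 (Kv t (Finset.mem_filter.1 ht).1 t' (Finset.mem_filter.1 ht').1 hne)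
          (Finset.mem_filter.1 ht).2 (Finset.mem_filter.1 ht').2
      have k2 := Dec_deg hDK v
      omega
    · have k1 : (htD c A O).card ≤ (htLw c A).card * 3 :=
        card_biUnion_le.trans ((sum_le_card_nsmul _ _ 3 fun t ht => (card_ed (K3 t ht)).le).trans
          (Nat.mul_le_mul_right 3 card_image_le))
      have k2 : ((htD c A O).card : ℝ) ≤ (htLw c A).card * 3 := by exact_mod_cast k1
      linarith [not_lt.1 h3]
    · rw [ht_star_card] at h
      have he' : e ∈ htLw c A := Finset.mem_filter.2 ⟨he, h⟩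
      obtain ⟨T, k1, k2, -⟩ := ht_fst U he' hb
      exact mem_biUnion.2 ⟨_, mem_image_of_mem _ he', k1 ▸ k2⟩
  have hD1 := not_not.1 fun h => h5 ⟨adm, h⟩
  have hall : Dec ((htKp U p).map (htJ _)) (KN (Fin n)) := by
    rw [← sdiff_union_of_subset hsub]
    refine Dec_union sdiff_disjoint (Dec_mono (union_subset ?_ ?_) hD1) (Dec_mono ?_ hDK)
    · exact map_subset_map.2 fun T hT => ht_mem_kp.2 ((ht_mem_kp.1 hT).trans (hap.trans hp1))
    · exact map_subset_map.2 fun T hT =>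
        ht_mem_kp.2 ((ht_mem_kp.1 (Finset.mem_sdiff.1 hT).1).trans hp1)
    · intro t ht
      obtain ⟨e, he, rfl⟩ := mem_image.1 ht
      obtain ⟨T, k1, -, k3⟩ := ht_fst U he hp
      exact Finset.mem_map.2 ⟨T, ht_mem_kp.2 k3, k1⟩
  obtain ⟨S, hS, s1, s2⟩ := (bridge_iff _).1 hall
  refine ⟨univ.filter fun T => T.1 ∈ S, fun T hT => ?_, fun e he => ?_⟩
  · exact ht_mem_kp.1 ((mem_map' (htJ _)).1 (hS (Finset.mem_filter.1 hT).2))
  · obtain ⟨t, ⟨k1, k2⟩, k3⟩ := s2 e he
    refine ⟨⟨t, s1 t k1⟩, ⟨Finset.mem_filter.2 ⟨mem_univ _, k1⟩, k2⟩, fun T hT => Subtype.ext ?_⟩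
    exact k3 T.1 ⟨(Finset.mem_filter.1 hT.1).2, hT.2⟩

open Classical in
theorem ht_embP {ι α : Type} [Fintype ι] [DecidableEq ι] [Fintype α] [DecidableEq α] (j : ι ↪ α)
    {p : α → ℝ} (hp : IsP p) (h0 : ∀ x, p x ≠ 0 → ∃ t, j t = x) (E : Finset α → Prop) :
    Pr (fun t => p (j t)) (fun A => E (A.map j)) ≤ Pr p E :=
  ht_emb j hp h0 fun R => if E R then 1 else 0

theorem ht_fail {δ : ℝ} (hδ : 0 < δ) (hδ1 : δ ≤ 1) : ∀ᶠ n : ℕ in atTop, (n % 6 = 1 ∨ n % 6 = 3) →
    (lab (Tri (Fin n))).real {U | (fun A O B => htAdm n (A.map (htJ _)) (htD (Real.log n / 200) A O) ∧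
      ¬ Dec (A.map (htJ _) ∪ B.map (htJ _)) (KN (Fin n) \ htD (Real.log n / 200) A O))
      (htKp U (19 / 10 * Real.log n / n))
      (htOrd (htEx (Real.log n / 200) (htKp U (19 / 10 * Real.log n / n))) U)
      (htKp U (39 / 20 * Real.log n / n) \ (htKp U (19 / 10 * Real.log n / n) ∪
        htEx (Real.log n / 200) (htKp U (19 / 10 * Real.log n / n))))} ≤ 6 * δ := by
  classical
  obtain ⟨n0, h0⟩ := ht_one hδ hδ1
  filter_upwards [eventually_ge_atTop n0,
    tlog_div.eventually_le_const (show (0 : ℝ) < 1 / 3 by norm_num)] with n hn hl hmod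
  obtain ⟨ψ, ψ0, ψ1, ψ2⟩ := h0 n hn hmod
  have l0 : 0 ≤ Real.log n / n := div_nonneg (Real.log_natCast_nonneg n) (Nat.cast_nonneg n)
  simp only [mul_div_assoc] at ψ1 ψ2 ⊢
  set x := Real.log n / n with hx
  set q := (39 / 20 * x - 19 / 10 * x) / (1 - 19 / 10 * x) with hq
  have q0 : 1 / 20 * x ≤ q := by
    rw [hq, le_div_iff₀ (by linarith)]
    nlinarith
  have q1 : q ≤ 1 := by
    rw [hq, div_le_one (by linarith)]
    linarith
  refine (ht_cond (a := 19 / 10 * x) (p := 39 / 20 * x) (by linarith) (by linarith) (by linarith)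
    (by linarith) (htEx (Real.log n / 200))
    (fun A O B => htAdm n (A.map (htJ _)) (htD (Real.log n / 200) A O) ∧
      ¬ Dec (A.map (htJ _) ∪ B.map (htJ _)) (KN (Fin n) \ htD (Real.log n / 200) A O))
    (fun A => ψ (A.map (htJ _))) (fun A => ψ0 _) fun A O => ?_).trans ?_
  · by_cases adm : htAdm n (A.map (htJ _)) (htD (Real.log n / 200) A O)
    swap
    · rw [Pr_false _ fun B h => adm h.1]
      exact ψ0 _
    set p : Finset (Fin n) → ℝ := fun t => if h : t.card = 3 then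
      (if (⟨t, h⟩ : Tri (Fin n)) ∈ A ∪ htEx (Real.log n / 200) A then 0 else q) else 0 with hp
    have hp1 : IsP p := fun t => by
      simp only [hp]
      split_ifs <;> constructor <;> linarith
    have e1 : (fun T : Tri (Fin n) => if T ∈ A ∪ htEx (Real.log n / 200) A then 0 else q)
        = fun T => p (htJ _ T) := funext fun T => by
      show _ = p T.1
      simp only [hp, dif_pos T.2]
    rw [e1, Pr_congr fun B => and_iff_right adm]
    refine le_trans (ht_embP (htJ _) hp1 (fun t ht => ?_) fun R => ¬ Dec (A.map (htJ _) ∪ R)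
      (KN (Fin n) \ htD (Real.log n / 200) A O)) (ψ2 _ _ adm p hp1 fun t ht hA => ?_)
    · by_cases h : t.card = 3
      · exact ⟨⟨t, h⟩, rfl⟩
      · exact absurd (dif_neg h) ht
    · obtain ⟨t3, ht⟩ := mem_tri.1 ht
      simp only [hp, dif_pos t3]
      rw [if_neg]
      · exact q0
      · intro h
        rcases mem_union.1 h with h | h
        · exact hA (Finset.mem_map.2 ⟨_, h, rfl⟩)
        · obtain ⟨e, k1, k2⟩ := (Finset.mem_filter.1 h).2
          refine (Finset.mem_sdiff.1 (ht k2)).2 (adm.low e (Finset.mem_filter.1 k1).1 ?_)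
          rw [ht_star_card]
          exact (Finset.mem_filter.1 k1).2
  · set p : Finset (Fin n) → ℝ := fun t => if t.card = 3 then 19 / 10 * x else 0 with hp
    have hp1 : IsP p := fun t => by
      simp only [hp]
      split_ifs <;> constructor <;> linarith
    have e1 : (fun _ : Tri (Fin n) => 19 / 10 * x) = fun T => p (htJ _ T) :=
      funext fun T => (if_pos T.2).symm
    rw [e1]
    refine le_trans (ht_emb (htJ _) hp1 (fun t ht => ?_) ψ) (ψ1 p hp1 fun t => ?_)
    · by_cases h : t.card = 3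
      · exact ⟨⟨t, h⟩, rfl⟩
      · exact absurd (if_neg h) ht
    · simp only [hp]
      split_ifs <;> linarith

theorem ht_t6 : Tendsto (fun n : ℕ =>
    1 / ((n.choose 2 : ℝ) * (1 - 39 / 20 * Real.log n / n) ^ (n - 2)) +
    2 * (n : ℝ) / (n.choose 2 : ℝ)) atTop (𝓝 0) := by
  have h := ((texp_log (c := 11 / 1000) (by norm_num)).const_mul 4).add
    (tendsto_const_div_atTop_nhds_zero_nat (8 : ℝ))
  rw [mul_zero, add_zero] at h
  have ev := tlog_div.eventually_le_const (show (0 : ℝ) < 1 / 100 by norm_num)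
  refine squeeze_zero' ?_ ?_ h
  · filter_upwards [ev] with n hn
    have : 39 / 20 * Real.log n / n = 39 / 20 * (Real.log n / n) := by ring
    have : 0 ≤ (1 - 39 / 20 * Real.log n / n) ^ (n - 2) := pow_nonneg (by linarith) _
    positivity
  filter_upwards [ev, eventually_ge_atTop 2] with n hn h2
  have n2 : (2 : ℝ) ≤ n := by exact_mod_cast h2
  set a := 39 / 20 * Real.log n / n with ha
  have ha' : a = 39 / 20 * (Real.log n / n) := by rw [ha]; ring
  have han : a * n = 39 / 20 * Real.log n := by rw [ha]; field_simp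
  have a0 : 0 ≤ a := by
    have := Real.log_natCast_nonneg n
    positivity
  have hN : (n : ℝ) ^ 2 / 4 ≤ n.choose 2 := by
    rw [Nat.cast_choose_two]; nlinarith
  have h1 : Real.exp (-(51 / 50 * a)) ≤ 1 - a := by
    rw [Real.exp_neg, inv_le_iff_one_le_mul₀ (Real.exp_pos _)]
    have := Real.add_one_le_exp (51 / 50 * a)
    nlinarith [mul_le_mul_of_nonneg_left this (show 0 ≤ 1 - a by linarith)]
  have h3 : Real.exp (-(1989 / 1000 * Real.log n)) ≤ (1 - a) ^ (n - 2) := by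
    calc _ = Real.exp (-(51 / 50 * a)) ^ n := by
          rw [← Real.exp_nat_mul]; congr 1; linarith
      _ ≤ (1 - a) ^ n := pow_le_pow_left₀ (by positivity) h1 _
      _ ≤ _ := pow_le_pow_of_le_one (by linarith) (by linarith) (by omega)
  refine add_le_add ?_ ?_
  · have h4 : (n : ℝ) ^ 2 / 4 * Real.exp (-(1989 / 1000 * Real.log n)) ≤
        n.choose 2 * (1 - a) ^ (n - 2) := mul_le_mul hN h3 (by positivity) (by positivity)
    refine (one_div_le_one_div_of_le (by positivity) h4).trans (le_of_eq ?_)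
    rw [exp_two_log (by omega), div_mul_eq_mul_div, ← Real.exp_add, one_div_div, div_eq_mul_inv,
      ← Real.exp_neg]
    congr 2; ring
  · rw [div_le_div_iff₀ (by nlinarith) (by linarith)]
    nlinarith

theorem ht_main : Tendsto (fun n : ℕ => lab (Tri (Fin n)) {U | ∃ p : ℝ, Covers (kept U p) ∧
    ¬ ∃ S : Finset (Tri (Fin n)), (∀ T ∈ S, (U T : ℝ) ≤ p) ∧
      ∀ e : Finset (Fin n), e.card = 2 → ∃! T, T ∈ S ∧ e ⊆ T.1})
    (atTop ⊓ 𝓟 {n : ℕ | n % 6 = 1 ∨ n % 6 = 3}) (𝓝 0) := by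
  rw [← ENNReal.tendsto_toReal_iff (fun n => measure_ne_top _ _) ENNReal.zero_ne_top,
    ENNReal.toReal_zero]
  refine Metric.tendsto_nhds.2 fun δ' hδ' => eventually_inf_principal.2 ?_
  obtain ⟨δ, hδ, hδ1, hδ2⟩ : ∃ δ : ℝ, 0 < δ ∧ δ ≤ 1 ∧ 11 * δ ≤ δ' :=
    ⟨min 1 (δ' / 11), by positivity, min_le_left _ _, by linarith [min_le_right 1 (δ' / 11)]⟩
  filter_upwards [ht_fail hδ hδ1, ht_t6.eventually_le_const hδ, t5.eventually_le_const hδ,
    ht_ev 0 (c := 1 / 10) (δ := δ / Real.exp 2) (by norm_num) (by positivity),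
    ht_ev 2 (c := 7 / 10) (δ := δ / (252 * Real.exp 7)) (by norm_num) (by positivity),
    tlog_div.eventually_le_const (show (0 : ℝ) < 1 / 4 by norm_num), tlog.eventually_ge_atTop 1,
    eventually_ge_atTop 2] with n f1 f2 f3 f4 f5 hl hL h2 hmod
  have n0 : (0 : ℝ) < n := by exact_mod_cast (show 0 < n by omega)
  have hc : Fintype.card (Fin n) = n := Fintype.card_fin n
  set L := Real.log n with hLd
  set a := 19 / 10 * L / n with ha
  set p1 := 39 / 20 * L / n with hp1
  set b := 2 * (3 / 2 * L) / n with hb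
  have l0 : 0 ≤ L / n := by positivity
  have ha' : a = 19 / 10 * (L / n) := by rw [ha]; ring
  have hp' : p1 = 39 / 20 * (L / n) := by rw [hp1]; ring
  have hb' : b = 3 * (L / n) := by rw [hb]; ring
  have han : a * n = 19 / 10 * L := by rw [ha]; field_simp
  have hbn : n * b = 3 * L := by rw [hb]; field_simp
  have g2 := prob_covers (V := Fin n) (a := p1) (by linarith) (by linarith) (by rwa [hc])
  have g3 := prob_not_covers (V := Fin n) (b := b) (by linarith) (by linarith)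
  have g4 := ht_few (V := Fin n) (a := a) (c := L / 200) (by linarith) (by linarith)
    (Real.exp_pos (L / 4)) (by rwa [hc])
  have g5 := ht_far (V := Fin n) (a := a) (b := b) (c := L / 200) (by linarith) (by linarith)
    (by linarith) (by linarith)
  rw [hc] at g2 g3 g4 g5
  have k4 : (n : ℝ) ^ 2 * Real.exp (5 * (L / 200) - 99 / 100 * (a * (n - 2))) / Real.exp (L / 4)
      ≤ δ := by
    rw [pow_zero, one_mul, le_div_iff₀ (Real.exp_pos _), ← Real.exp_add] at f4
    rw [exp_two_log (by omega), ← Real.exp_add, ← Real.exp_sub]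
    exact (Real.exp_le_exp.2 (by nlinarith)).trans f4
  have k5 : (n : ℝ) ^ 3 * (9 * (1 + 3 * (n * b) ^ 2) *
      Real.exp (10 * (L / 200) - 99 / 100 * (a * (2 * n - 7)))) ≤ δ := by
    rw [le_div_iff₀ (by positivity)] at f5
    have e1 : (n : ℝ) ^ 3 = Real.exp (3 * L) := by
      rw [hLd, show (3 : ℝ) = (3 : ℕ) by norm_num, Real.exp_nat_mul, Real.exp_log n0]
    have e2 : Real.exp (3 * L) * Real.exp (10 * (L / 200) - 99 / 100 * (a * (2 * n - 7))) ≤
        Real.exp (-(7 / 10 * L)) * Real.exp 7 := by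
      rw [← Real.exp_add, ← Real.exp_add]
      exact Real.exp_le_exp.2 (by nlinarith)
    have e3 : 9 * (1 + 3 * (3 * L) ^ 2) ≤ 252 * L ^ 2 := by nlinarith
    have e4 := mul_le_mul e3 e2 (by positivity) (by positivity)
    rw [e1, hbn]
    linarith
  rw [Real.dist_eq, sub_zero, abs_of_nonneg ENNReal.toReal_nonneg]
  refine lt_of_le_of_lt (le_trans (lab_mono ?_) ((measureReal_union_le _ _).trans (add_le_add
    ((measureReal_union_le _ _).trans (add_le_add ((measureReal_union_le _ _).trans (add_le_add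
    ((measureReal_union_le _ _).trans (add_le_add (f1 hmod) (g2.trans f2))) (g3.trans f3)))
    (g4.trans k4))) (g5.trans k5)))) (by linarith)
  rintro U ⟨p, hp, hno⟩
  by_contra hbad
  simp only [Set.mem_union, Set.mem_ofPred_eq, not_or] at hbad
  obtain ⟨⟨⟨⟨q1, q2⟩, q3⟩, q4⟩, q5⟩ := hbad
  exact hno (ht_det U (a := a) (p1 := p1) (b := b) (by linarith) hp q2 (not_not.1 q3) q4 q5 q1)

end Pool.Agent.P.MP_224820_co.St
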