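import Pool.Agent.P.MP_224820_co.St.All

/-! Level zero with an exposed layer `A` of triangles. -/

set_option autoImplicit false

namespace Pool.Agent.P.MP_224820_co.St

open Finset

variable {V : Type} [Fintype V] [DecidableEq V]

/-- the triangles on `e` -/
def htStar (e : Sym2 V) : Finset (Finset V) := univ.filter fun t => t.card = 3 ∧ e ∈ ed t

/-- the triangles on `e` with another edge in `N` -/
def htF (N : Finset (Sym2 V)) (e : Sym2 V) : Finset (Finset V) :=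
  univ.filter fun t => t.card = 3 ∧ e ∈ ed t ∧ ∃ f ∈ N, f ≠ e ∧ f ∈ ed t

theorem ht_mem_F {N : Finset (Sym2 V)} {e : Sym2 V} {t : Finset V} :
    t ∈ htF N e ↔ t.card = 3 ∧ e ∈ ed t ∧ ∃ f ∈ N, f ≠ e ∧ f ∈ ed t := by
  simp [htF]

theorem ht_mem_star {e : Sym2 V} {t : Finset V} : t ∈ htStar e ↔ t.card = 3 ∧ e ∈ ed t := by
  simp [htStar]

theorem ht_card_F {N : Finset (Sym2 V)} {d : ℝ} (h : ∀ v, ((nb N v).card : ℝ) ≤ d) (e : Sym2 V) :
    ((htF N e).card : ℝ) ≤ 2 * d := by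
  induction e using Sym2.ind with
  | _ u v =>
  have h1 : htF N s(u, v) ⊆ (nb N u ∪ nb N v).image fun w => ({u, v, w} : Finset V) := by
    intro t ht
    obtain ⟨t3, he, f, hf, hne, hft⟩ := ht_mem_F.1 ht
    obtain ⟨w, h1, h2, rfl⟩ := exists_third t3 he
    rw [ed_triple (mk_mem_ed.1 he).2.2 h1.symm h2.symm] at hft
    simp only [mem_insert, mem_singleton] at hft
    refine mem_image.2 ⟨w, mem_union.2 ?_, rfl⟩
    rcases hft with rfl | rfl | rfl
    · exact absurd rfl hne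
    · exact Or.inl (mem_nb.2 hf)
    · exact Or.inr (mem_nb.2 hf)
  have h2 : (htF N s(u, v)).card ≤ (nb N u).card + (nb N v).card :=
    (card_le_card h1).trans (card_image_le.trans (card_union_le _ _))
  have h3 : ((htF N s(u, v)).card : ℝ) ≤ (nb N u).card + (nb N v).card := by exact_mod_cast h2
  linarith [h u, h v]

/-- the exposed layer `A` is badly spread with respect to the sparse graphs `M` and `E` -/
def htBad (d ds κ : ℝ) (M E : Finset (Sym2 V)) (A : Finset (Finset V)) : Prop :=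
  (∀ v, ((nb M v).card : ℝ) ≤ d) ∧ (∀ v, ((nb E v).card : ℝ) ≤ ds) ∧
    ((∃ e ∈ (univ : Finset (Sym2 V)), κ ≤ ((htF (M ∪ E) e ∩ A).card : ℝ)) ∨
      ∃ v ∈ (univ : Finset V), d ≤ ((cd_at E (KN V) v ∩ A).card : ℝ))

theorem ht_badP {p : Finset V → ℝ} (hp : IsP p) {a d ds κ lam : ℝ} (ha : ∀ t, p t ≤ a)
    (hlam : 0 ≤ lam) (M E : Finset (Sym2 V)) :
    Pr p (htBad d ds κ M E) ≤
      (Fintype.card V : ℝ) ^ 2 * Real.exp (2 * (d + ds) * a * (Real.exp lam - 1) - lam * κ)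
        + Fintype.card V * Real.exp (4 * a * Fintype.card V * ds - d) := by
  by_cases h : (∀ v, ((nb M v).card : ℝ) ≤ d) ∧ ∀ v, ((nb E v).card : ℝ) ≤ ds
  swap
  · rw [Pr_false p fun A hA => h ⟨hA.1, hA.2.1⟩]
    positivity
  have a0 : 0 ≤ a := (hp ∅).1.trans (ha ∅)
  have hs : ∀ (F : Finset (Finset V)) (c : ℝ), (F.card : ℝ) ≤ c → ∑ t ∈ F, p t ≤ c * a := by
    intro F c hc
    refine (sum_le_card_nsmul _ _ a fun t _ => ha t).trans ?_
    rw [nsmul_eq_mul]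
    exact mul_le_mul_of_nonneg_right hc a0
  have h1 := Pr_exists_le' hp (univ : Finset (Sym2 V))
    (fun e A => κ ≤ ((htF (M ∪ E) e ∩ A).card : ℝ)) fun e _ =>
    (all_CH1 _ p hp (htF (M ∪ E) e) lam (2 * (d + ds) * a) κ hlam).1
      (hs _ _ (ht_card_F (fun v => (ls0x_nb M E v).trans (add_le_add (h.1 v) (h.2 v))) e))
  have h2 := Pr_exists_le' hp (univ : Finset V)
    (fun v A => d ≤ ((cd_at E (KN V) v ∩ A).card : ℝ))
    (δ := Real.exp (4 * a * Fintype.card V * ds - d)) fun v _ => by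
    refine ((all_CH1 _ p hp (cd_at E (KN V) v) 1 (2 * Fintype.card V * ds * a) d zero_le_one).1
      (hs _ _ (cd_card_at h.2 v))).trans (Real.exp_le_exp.2 ?_)
    have b1 : (0 : ℝ) ≤ ds := le_trans (Nat.cast_nonneg _) (h.2 v)
    have b2 : (0 : ℝ) ≤ 2 * Fintype.card V * ds * a := by positivity
    have b3 := Real.exp_one_lt_d9
    nlinarith
  rw [card_univ] at h2
  have h3 : ((univ : Finset (Sym2 V)).card : ℝ) ≤ (Fintype.card V : ℝ) ^ 2 := by
    exact_mod_cast card_sym2_le _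
  refine (Pr_mono hp fun A hA => hA.2.2).trans ((Pr_or_le hp _ _).trans (add_le_add
    (h1.trans (mul_le_mul_of_nonneg_right h3 (Real.exp_pos _).le)) h2))

omit [Fintype V] in
theorem ht_ty_mono {L L' R R' : Finset (Sym2 V)} (h : L ⊆ L') (h' : R ⊆ R') {t : Finset V}
    (ht : Ty L R t) : Ty L' R' t := by
  obtain ⟨u, v, w, a, b, c, d⟩ := ht
  exact ⟨u, v, w, a, h b, h' c, h' d⟩

theorem ht_lst {G Gs Rs D : Finset (Sym2 V)} (hGs : NoLoop Gs) (hRs : NoLoop Rs)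
    (hd : Disjoint Gs Rs) (hG : G ⊆ Gs) (hD : ∀ v, (nb D v).card ≤ 2) (Q : Finset (Finset V))
    {e : Sym2 V} (he : e ∈ G) : (lst Gs Rs Q e : ℝ) ≤ lst G (Rs \ D) Q e + 4 := by
  classical
  have h1 : lst Gs Rs Q e ≤ lst G (Rs \ D) Q e + (htF D e).card := by
    unfold lst
    rw [cnt_eq, cnt_eq]
    refine le_trans (card_le_card fun t ht => ?_) (card_union_le _ _)
    obtain ⟨a, b, c⟩ := mem_filter.1 ht
    induction e using Sym2.ind with
    | _ u v =>
    obtain ⟨w, rfl, h1, h2⟩ := Ty_of_left hGs hRs hd b (hG he) c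
    have t3 := (Ty_card hGs hRs b).1
    by_cases k1 : s(u, w) ∈ D
    · exact mem_union_right _ (ht_mem_F.2 ⟨t3, c, _, k1,
        fun h => disjoint_left.1 hd (hG he) (h ▸ h1), mk_mem_ed.2 ⟨by simp, by simp, hRs.ne h1⟩⟩)
    by_cases k2 : s(v, w) ∈ D
    · exact mem_union_right _ (ht_mem_F.2 ⟨t3, c, _, k2,
        fun h => disjoint_left.1 hd (hG he) (h ▸ h2), mk_mem_ed.2 ⟨by simp, by simp, hRs.ne h2⟩⟩)
    exact mem_union_left _ (mem_filter.2
      ⟨a, ⟨u, v, w, rfl, he, mem_sdiff.2 ⟨h1, k1⟩, mem_sdiff.2 ⟨h2, k2⟩⟩, c⟩)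
  have h2 := ht_card_F (N := D) (d := 2) (fun v => by exact_mod_cast hD v) e
  have h3 : (lst Gs Rs Q e : ℝ) ≤ lst G (Rs \ D) Q e + (htF D e).card := by exact_mod_cast h1
  linarith

/-- deterministic cover-down of the exceptional edges inside the exposed layer -/
theorem ht_cd {G D M E : Finset (Sym2 V)} {A : Finset (Finset V)} (hG : NoLoop G)
    (hK : KN V ⊆ G ∪ M ∪ D) (hD : ∀ v, (nb D v).card ≤ 2) {κ d : ℝ} (hκ : 0 ≤ κ)
    (hlow : ∀ e ∈ G, 5 * κ + 4 < ((htStar e ∩ A).card : ℝ))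
    (h1 : ∀ e, ((htF (M ∪ E) e ∩ A).card : ℝ) < κ)
    (h2 : ∀ v, ((cd_at E (KN V) v ∩ A).card : ℝ) < d) :
    ∃ U ⊆ G \ (G ∩ E), Dec A (G ∩ E ∪ U) ∧ ∀ v, ((nb U v).card : ℝ) ≤ 2 * d := by
  have hL : NoLoop (G ∩ E) := fun e he => hG e (mem_inter.1 he).1
  have hR : NoLoop (G \ (G ∩ E)) := fun e he => hG e (mem_sdiff.1 he).1
  refine cd_det hL hR disjoint_sdiff hκ (fun e he => ?_) (fun f hf => ?_) (fun v => ?_)
  · have a1 : htStar e ∩ A ⊆ (blk (G ∩ E) (G \ (G ∩ E)) e ∩ A) ∪ (htF (M ∪ E) e ∩ A ∪ htF D e) := by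
      intro t ht
      obtain ⟨ht, hA⟩ := mem_inter.1 ht
      obtain ⟨t3, het⟩ := ht_mem_star.1 ht
      by_contra hc
      simp only [mem_union, mem_inter, not_or, ht_mem_F, cd_mem_blk] at hc
      have key : ∀ f ∈ ed t, f ≠ e → f ∈ G \ (G ∩ E) := by
        intro f hf hne
        have hfK : f ∈ KN V := mem_KN.2 (mem_filter.1 hf).2
        have k1 : ¬ (f ∈ M ∨ f ∈ E) := fun h => hc.2.1 ⟨⟨t3, het, f, h, hne, hf⟩, hA⟩
        have k2 : f ∉ D := fun h => hc.2.2 ⟨t3, het, f, h, hne, hf⟩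
        have k3 := hK hfK
        simp only [mem_union, mem_sdiff, mem_inter] at k3 ⊢
        tauto
      induction e using Sym2.ind with
      | _ u v =>
      obtain ⟨w, w1, w2, rfl⟩ := exists_third t3 het
      have huv := (mk_mem_ed.1 het).2.2
      refine hc.1 ⟨⟨⟨u, v, w, rfl, he, key _ (mk_mem_ed.2 ⟨by simp, by simp, w1.symm⟩) ?_,
        key _ (mk_mem_ed.2 ⟨by simp, by simp, w2.symm⟩) ?_⟩, het⟩, hA⟩
      · exact fun h => w2 (Sym2.congr_right.1 h)
      · intro h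
        rw [Sym2.eq_swap (a := u)] at h
        exact w1 (Sym2.congr_right.1 h)
    have a2 := (card_le_card a1).trans ((card_union_le _ _).trans
      (Nat.add_le_add_left (card_union_le _ _) _))
    have a3 : ((htStar e ∩ A).card : ℝ) ≤ (blk (G ∩ E) (G \ (G ∩ E)) e ∩ A).card +
        ((htF (M ∪ E) e ∩ A).card + (htF D e).card : ℝ) := by exact_mod_cast a2
    have a4 := ht_card_F (N := D) (d := 2) (fun v => by exact_mod_cast hD v) e
    linarith [hlow e (mem_inter.1 he).1, h1 e]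
  · refine lt_of_le_of_lt ?_ (h1 f)
    refine Nat.cast_le.2 (card_le_card (inter_subset_inter_right fun t ht => ?_))
    obtain ⟨b1, b2⟩ := cd_mem_blk.1 ht
    obtain ⟨e, c1, c2⟩ := ld_ty_ex hL b1
    exact ht_mem_F.2 ⟨(Ty_card hL hR b1).1, b2, e, mem_union_right _ (mem_inter.1 c1).2,
      fun h => (mem_sdiff.1 hf).2 (h ▸ c1), c2⟩
  · refine lt_of_le_of_lt ?_ (h2 v)
    refine Nat.cast_le.2 (card_le_card (inter_subset_inter_right fun t ht => ?_))
    obtain ⟨b1, b2⟩ := cd_mem_at.1 ht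
    exact cd_mem_at.2 ⟨ht_ty_mono inter_subset_right (fun e he => mem_KN.2 (hR e he)) b1, b2⟩

theorem ht_nn {G D M : Finset (Sym2 V)} (hK : KN V ⊆ G ∪ M ∪ D) (hD : ∀ v, (nb D v).card ≤ 2)
    (v : V) : ((nn G v).card : ℝ) ≤ 3 + (nb M v).card := by
  have h1 : nn G v ⊆ {v} ∪ nb D v ∪ nb M v := by
    intro w hw
    rw [mem_nn] at hw
    simp only [mem_union, mem_singleton, mem_nb]
    by_cases hvw : w = v
    · exact Or.inl (Or.inl hvw)
    · have := hK (mem_KN.2 fun h => hvw (Sym2.mk_isDiag_iff.1 h).symm : s(v, w) ∈ KN V)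
      simp only [mem_union] at this
      tauto
  have h2 := (card_le_card h1).trans ((card_union_le _ _).trans
    (Nat.add_le_add_right (card_union_le _ _) _))
  rw [card_singleton] at h2
  have h3 : (nn G v).card ≤ 3 + (nb M v).card := by have := hD v; omega
  exact_mod_cast h3

theorem ht_zero (G Gs Rs D M : Finset (Sym2 V)) (A : Finset (Finset V)) (hGs : NoLoop Gs)
    (hRs : NoLoop Rs) (hds : Disjoint Gs Rs) (hGG : G ⊆ Gs) (hK : KN V ⊆ G ∪ M ∪ D)
    (hD : ∀ v, (nb D v).card ≤ 2) (θ β κ : ℝ) (P : P0) (ok : P.ok (Fintype.card V) θ β)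
    (hθ : θ ≤ 1 / 2800) (hθ1 : 1 ≤ θ * Fintype.card V) (hκ : 0 ≤ κ)
    (hq : 32 ≤ P.q * (Fintype.card V * β ^ 2))
    (hM : ∀ v, ((nb M v).card : ℝ) ≤ θ * Fintype.card V)
    (hdR : ∀ v, ((nb Rs v).card : ℝ) ≤ 2 * Fintype.card V * β)
    (hcoS : ∀ u v, u ≠ v → 99 / 100 * (Fintype.card V * β ^ 2) ≤ ((nb Rs u ∩ nb Rs v).card : ℝ))
    (hco : ∀ u v, u ≠ v → Fintype.card V * β ^ 2 / 2 ≤ ((nb (Rs \ D) u ∩ nb (Rs \ D) v).card : ℝ))
    (hlow : ∀ e ∈ G, 5 * κ + 4 < ((htStar e ∩ A).card : ℝ))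
    (h : Finset V → ℝ) (h0 : ∀ t, 0 ≤ h t)
    (htri : ∀ t ∈ tri G, 4 / (Fintype.card V * P.μ ^ 2) ≤ h t)
    (hty : ∀ t, Ty Gs Rs t → 4 * P.q ≤ h t) :
    Pr (hz h) (fun T => ¬ ∃ U ⊆ Rs \ D, Dec (A ∪ T) (G ∪ U)) ≤ P.bd (Fintype.card V) θ β +
      Pr (tyP Gs Rs P.q)
        (fun Q => htBad (θ * Fintype.card V) P.ds κ M (exc Gs Rs (P.k + 1) Q) A) := by
  classical
  obtain ⟨q0, q1, k0, ps, qb0, Hb0, qbH, kb0, l10, l20, lam0, ds, th, ell1, mu0, mu1, mue, nW, nN⟩ := ok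
  set n : ℝ := (Fintype.card V : ℝ) with hn
  set R := Rs \ D with hRdef
  have hRR : R ⊆ Rs := sdiff_subset
  have hG : NoLoop G := fun e he => hGs e (hGG he)
  have hR : NoLoop R := fun e he => hRs e (hRR he)
  have hd : Disjoint G R := hds.mono hGG hRR
  have n0 : 0 ≤ n := Nat.cast_nonneg _
  have hell : 0 < P.ell := by linarith
  have npos : 0 < n := by
    have h1 : 0 < 2 * 10 ^ 9 * P.ell ^ 7 := by positivity
    rcases n0.lt_or_eq with h2 | h2
    · exact h2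
    · rw [← h2] at nW; linarith
  have c3 : 0 ≤ 4 / (n * P.μ ^ 2) := by positivity
  have hN1 : ∀ u v, s(u, v) ∈ G → n * β ^ 2 / 2 ≤ ((nb R u ∩ nb R v).card : ℝ) :=
    fun u v he => hco u v (gra_ne hG he)
  set h3 : Finset V → ℝ := fun t => if t ∈ tri G then 4 / (n * P.μ ^ 2) else 0 with hh3
  set h4 : Finset V → ℝ := fun t => if Ty Gs Rs t then 2 * P.q else 0 with hh4
  have p3 : ∀ t, 0 ≤ h3 t := fun t => by simp only [hh3]; split_ifs <;> linarith
  have p4 : ∀ t, 0 ≤ h4 t := fun t => by simp only [hh4]; split_ifs <;> linarith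
  have inc : ∀ Q : Finset (Finset V), Incr fun T => ∃ U ⊆ R, Dec (A ∪ (Q ∪ T)) (G ∪ U) := by
    rintro Q T T' hT ⟨U, hU, hD⟩
    exact ⟨U, hU, Dec_mono (union_subset_union_right (union_subset_union_right hT)) hD⟩
  have inc0 : Incr fun T : Finset (Finset V) => ∃ U ⊆ R, Dec (A ∪ T) (G ∪ U) := by
    rintro T T' hT ⟨U, hU, hD⟩
    exact ⟨U, hU, Dec_mono (union_subset_union_right hT) hD⟩
  set d4 : ℝ := n ^ 2 * Real.exp (P.Z * P.ps * (Real.exp P.lam - 1) - P.lam * P.k / 2)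
    + n ^ 2 * Real.exp (2 * P.q * (10 * P.μ * n * β) * (Real.exp P.lam - 1) - P.lam * P.k / 2)
    with hd4
  set d3 : ℝ := 11200 * P.ell ^ 3 / P.μ * n ^ 2 * Real.exp (-P.ell) with hd3
  set d2 : ℝ := n ^ 2 * Real.exp (4 * P.l1 * P.kb - P.qb * (n * (1 - 4 * θ)) * (1 - Real.exp (-P.l1)))
    + n ^ 2 * Real.exp (2 * P.qb * P.ds * (Real.exp P.l2 - 1) - P.l2 * P.kb)
    + n * Real.exp (4 * P.qb * n * P.ds - θ * n) with hd2
  set d1 : ℝ := n * Real.exp (2 * n * P.ps - P.ds) + n ^ 2 * Real.exp (4 * P.q * (2 * n * β) - P.Z)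
    with hd1
  have e4 : 0 ≤ d4 := by positivity
  have e3 : 0 ≤ d3 := by positivity
  have e2 : 0 ≤ d2 := by positivity
  have hbd : P.bd n θ β = d1 + (d2 + (d3 + d4)) := by
    simp only [P0.bd, hd1, hd2, hd3, hd4]; ring
  have hP1 : IsP (tyP Gs Rs P.q) := fun t => by
    unfold tyP; split_ifs <;> constructor <;> linarith
  have hLA := all_LA V Gs Rs hGs hRs hds P.q (99 / 100 * (n * β ^ 2)) _ (P.k + 1) P.ps P.ds P.Z q0
    (by linarith) (fun u v he => hcoS u v (gra_ne hGs he)) hdR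
    (le_trans (Real.exp_le_exp.2 (by linarith)) ps)
  have key := (all_TWO (Finset V) _ _ inc0 _ (d3 + d4) (by positivity)).1 (hz h) (tyP Gs Rs P.q)
    (hz fun t => h3 t + h4 t) (hz_isP h0) hP1 (hz_isP fun t => add_nonneg (p3 t) (p4 t)) ?_
    ((Pr_or_le hP1 _ (fun Q => htBad (θ * n) P.ds κ M (exc Gs Rs (P.k + 1) Q) A)).trans
      (add_le_add hLA le_rfl)) ?_
  · rw [hbd]
    linarith
  · intro t
    simp only [hz, sub_sub_cancel, tyP, hh3, hh4]
    by_cases ht : Ty Gs Rs t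
    · have hq := le_hz (h := fun _ : Unit => 2 * P.q) (a := ()) q0 q1 le_rfl
      simp only [hz] at hq
      simp only [if_pos ht, if_neg fun h => ls0x_not_tri hRs hds ht (tri_mono hGG h), zero_add]
      have h5 : Real.exp (-h t) ≤ Real.exp (-(2 * P.q)) * Real.exp (-(2 * P.q)) := by
        rw [← Real.exp_add]
        exact Real.exp_le_exp.2 (by linarith [hty t ht])
      exact h5.trans (mul_le_mul_of_nonneg_right (by linarith) (Real.exp_pos _).le)
    · simp only [if_neg ht, sub_zero, one_mul, add_zero]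
      refine Real.exp_le_exp.2 (neg_le_neg ?_)
      split_ifs with h5
      · exact htri t h5
      · linarith [h0 t]
  intro Q hQ
  rw [not_or, not_not] at hQ
  obtain ⟨⟨hQ1, hQ2⟩, hQ3⟩ := hQ
  set Es := exc Gs Rs (P.k + 1) Q with hEs
  have hQ4 : ¬ _ := fun h => hQ3 ⟨hM, hQ1, h⟩
  simp only [not_or, not_exists, not_and, not_le, mem_univ, true_imp_iff] at hQ4
  obtain ⟨U1, hU1, hD1, hU1d⟩ := ht_cd hG hK hD hκ hlow hQ4.1 hQ4.2
  set E := G ∩ Es with hE
  have hEG : E ⊆ G := inter_subset_left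
  have hEd : ∀ v, ((nb E v).card : ℝ) ≤ P.ds := fun v =>
    le_trans (Nat.cast_le.2 (card_le_card (nb_mono inter_subset_right v))) (hQ1 v)
  have hU1G : U1 ⊆ G := hU1.trans sdiff_subset
  set G' := G \ (E ∪ U1) with hG'
  have hG'G : G' ⊆ G := sdiff_subset
  have hG'l : NoLoop G' := fun e he => hG e (hG'G he)
  have hn' : ∀ v, ((nn G' v).card : ℝ) ≤ 7 * (θ * n) := fun v => by
    linarith [ls0x_nn G (E ∪ U1) v, ls0x_nb E U1 v, ht_nn hK hD v, hM v, hEd v, hU1d v]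
  have htyp : Typ G' 1 := ls0x_typ G' hn' (by linarith) (by nlinarith)
  obtain ⟨ω, hω, hw⟩ := all_BOOST V ∅ G' 1 (fun e he => absurd he (notMem_empty _)) hG'l
    (disjoint_empty_left _) one_pos le_rfl htyp (fun x w _ => by
      have : nb (∅ : Finset (Sym2 V)) x = ∅ := by ext y; simp [mem_nb]
      rw [this, empty_inter, card_empty, Nat.cast_zero]
      positivity)
  rw [empty_union] at hw
  simp only [one_pow, mul_one] at hω
  refine (all_TWO (Finset V) _ _ (inc Q) d3 d4 e4).2 _ h3 h4 p3 p4 (fun _ => le_rfl)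
    (all_NIBS V G' R ω (2 / n) (2 * n * β) P.μ P.ell hG'l (hd.mono_left hG'G) (by positivity) hω hw
      ell1 mu0 mu1 mue ?_ nN ?_ h3 p3 ?_) ?_
  · rw [← mul_div_assoc, div_le_iff₀ npos]
    linarith
  · intro u w _
    refine le_trans ?_ (hdR w)
    exact_mod_cast card_le_card (inter_subset_right.trans (nb_mono hRR w))
  · intro t ht
    simp only [hh3, if_pos (tri_mono hG'G ht)]
    refine le_of_eq ?_
    field_simp
    ring
  intro T3 hT3
  obtain ⟨Λ, hΛ, hD2, hΛd⟩ := not_not.1 hT3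
  refine le_trans (Pr_mono (hz_isP p4) ?_)
    (all_LD V G R hG hR hd P.q _ (10 * P.μ * n * β) P.k P.ps P.Z P.lam q0 k0 lam0 hN1 ps Q ?_ Λ
      (hΛ.trans hG'G) ?_ ?_ (hz h4) (hz_isP p4) (by linarith) ?_)
  · rintro T hT ⟨U, hU, hD3⟩
    refine hT ⟨U, hU, ls0x_glue hd hEG hU1G hΛ hU (Dec_mono ?_ hD1) (Dec_mono ?_ hD2)
      (Dec_mono ?_ hD3)⟩
    · exact subset_union_left
    · exact (subset_union_left.trans subset_union_right).trans subset_union_right
    · exact (union_subset_union_right subset_union_right).trans subset_union_right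
  · intro f hf
    refine le_trans (Nat.cast_le.2 ?_) (hQ2 f (hRR hf))
    exact cnt_mono fun t ht hp => ⟨ht, ht_ty_mono hGG hRR hp.1, hp.2⟩
  · intro e he h5
    have heG := hG'G (hΛ he)
    have h6 := (mem_filter.1 h5).2
    have h7 := ht_lst hGs hRs hds hGG hD Q heG
    refine (mem_sdiff.1 (hΛ he)).2 (mem_union_left _ (mem_inter.2 ⟨heG, ?_⟩))
    exact mem_filter.2 ⟨hGG heG, by linarith⟩
  · intro u w _
    have := hΛd u w
    linarith
  · intro t ht
    exact le_hz q0 q1 (by simp only [hh4, if_pos (ht_ty_mono hGG hRR ht)]; exact le_rfl)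

end Pool.Agent.P.MP_224820_co.St
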