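import Pool.Agent.P.MP_224820_co.Ht.Lo
import Pool.Agent.P.MP_224820_co.Ht.Zero
import Pool.Agent.P.MP_224820_co.Ht.Chain

/-! The clustered model with an exposed layer and a removed graph. -/

set_option autoImplicit false

namespace Pool.Agent.P.MP_224820_co.St

open Finset Filter Topology

theorem ht_ext {P : P0} {n θ β δ : ℝ} (ok : P.ok n θ β) (hn : 1 ≤ n) (hθ : 0 ≤ θ)
    (hb : P.bd n θ β ≤ δ) (hδ : δ ≤ 1) :
    2 * Real.log n / n ≤ P.qb ∧ P.qb ≤ P.Hb ∧ 32 ≤ P.q * (n * β ^ 2) ∧ 0 ≤ P.ds ∧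
      n * Real.exp (4 * P.qb * n * P.ds - θ * n) ≤ δ := by
  obtain ⟨q0, q1, k0, ps, qb0, Hb0, qbH, kb0, l10, l20, lam0, ds, th, ell1, mu0, mu1, mue, nW, nN⟩ := ok
  have n0 : 0 < n := by linarith
  have hell : 0 < P.ell := by linarith
  unfold P0.bd at hb
  have a1 : 0 ≤ n * Real.exp (2 * n * P.ps - P.ds) := by positivity
  have a2 : 0 ≤ n ^ 2 * Real.exp (4 * P.q * (2 * n * β) - P.Z) := by positivity
  have a3 : 0 ≤ n ^ 2 * Real.exp (4 * P.l1 * P.kb - P.qb * (n * (1 - 4 * θ)) *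
    (1 - Real.exp (-P.l1))) := by positivity
  have a4 : 0 ≤ n ^ 2 * Real.exp (2 * P.qb * P.ds * (Real.exp P.l2 - 1) - P.l2 * P.kb) := by
    positivity
  have a5 : 0 ≤ n * Real.exp (4 * P.qb * n * P.ds - θ * n) := by positivity
  have a6 : 0 ≤ 11200 * P.ell ^ 3 / P.μ * n ^ 2 * Real.exp (-P.ell) := by positivity
  have a7 : 0 ≤ n ^ 2 * Real.exp (P.Z * P.ps * (Real.exp P.lam - 1) - P.lam * P.k / 2) := by
    positivity
  have a8 : 0 ≤ n ^ 2 * Real.exp (2 * P.q * (10 * P.μ * n * β) * (Real.exp P.lam - 1)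
    - P.lam * P.k / 2) := by positivity
  have b1 : 2 * n * P.ps - P.ds ≤ 0 := by
    rw [← Real.exp_le_one_iff]
    nlinarith [Real.exp_pos (2 * n * P.ps - P.ds)]
  have ps0 : 0 < P.ps := (Real.exp_pos _).trans_le ps
  have b2 : P.ps ≤ 1 / 3200 := by nlinarith
  refine ⟨?_, ?_, ?_, by nlinarith, by linarith⟩
  · have c1 : n ^ 2 = Real.exp (2 * Real.log n) := by
      rw [two_mul, Real.exp_add, Real.exp_log n0, sq]
    have c2 : Real.exp (2 * Real.log n + (4 * P.l1 * P.kb - P.qb * (n * (1 - 4 * θ)) *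
        (1 - Real.exp (-P.l1)))) ≤ 1 := by
      rw [Real.exp_add, ← c1]
      linarith
    rw [Real.exp_le_one_iff] at c2
    have c3 : 0 ≤ P.qb * (n * (1 - 4 * θ)) := mul_nonneg qb0 (mul_nonneg n0.le (by linarith))
    have c4 := mul_nonneg c3 (Real.exp_pos (-P.l1)).le
    have c5 := mul_nonneg l10 kb0
    have c6 := mul_nonneg qb0 (mul_nonneg n0.le hθ)
    rw [div_le_iff₀ n0]
    nlinarith
  · linarith [Real.add_one_le_exp (-P.Hb)]
  · have c1 : Real.exp 8 ≤ 3200 := by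
      have e1 : Real.exp 8 = Real.exp 1 ^ 8 := by rw [← Real.exp_nat_mul]; norm_num
      rw [e1]
      exact (pow_le_pow_left₀ (Real.exp_pos 1).le Real.exp_one_lt_d9.le 8).trans (by norm_num)
    have c2 : (1 / 3200 : ℝ) ≤ Real.exp (-8) := by
      rw [Real.exp_neg, one_div]
      exact inv_anti₀ (Real.exp_pos _) c1
    have c3 := Real.exp_le_exp.1 (ps.trans (b2.trans c2))
    linarith

/-- admissible removed graphs -/
structure htAdm (n : ℕ) (A : Finset (Finset (Fin n))) (D : Finset (Sym2 (Fin n))) : Prop where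
  sub : D ⊆ KN (Fin n)
  deg : ∀ v, (nb D v).card ≤ 2
  dv : Dv D
  card : (D.card : ℝ) ≤ 3 * Real.exp (Real.log n / 4)
  low : ∀ e ∈ KN (Fin n), ((htStar e ∩ A).card : ℝ) ≤ Real.log n / 200 → e ∈ D

theorem ht_tlog : Tendsto (fun n : ℕ => Real.log n) atTop atTop :=
  Real.tendsto_log_atTop.comp tendsto_natCast_atTop_atTop

theorem ht_large {c : ℝ} (hc : 0 < c) : ∃ n0 : ℕ, ∀ n : ℕ, n0 ≤ n →
    Real.log n ^ (-(1 / 10) : ℝ) ≤ c ∧ 1600 ≤ Real.log n ∧ 3000 ≤ (n : ℝ) ^ (1 / 100 : ℝ) ∧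
      1 / c ≤ n := by
  have h1 := ((tendsto_rpow_neg_atTop (y := 1 / 10) (by norm_num)).comp ht_tlog).eventually
    (ge_mem_nhds hc)
  have h2 := ht_tlog.eventually_ge_atTop 1600
  have h3 := ((tendsto_rpow_atTop (y := 1 / 100) (by norm_num)).comp
    tendsto_natCast_atTop_atTop).eventually_ge_atTop 3000
  have h4 := (tendsto_natCast_atTop_atTop (R := ℝ)).eventually_ge_atTop (1 / c)
  exact eventually_atTop.1 (h1.and (h2.and (h3.and h4)))

theorem ht_top {ε δ : ℝ} (hε : 0 < ε) (hε1 : ε ≤ 1) (hδ : 0 < δ) (hδ1 : δ ≤ 1) :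
    ∃ n0 : ℕ, ∀ n : ℕ, n0 ≤ n →
    (n % 6 = 1 ∨ n % 6 = 3) → ∀ (J : ℕ) (x0 : ℝ), ParOK n J x0 →
    ∃ ψ : Finset (Fin (2 * J + 2) × Sym2 (Fin n)) → Finset (Finset (Fin n)) → ℝ,
      (∀ ξ A, 0 ≤ ψ ξ A) ∧
      (∀ ξ (p : Finset (Fin n) → ℝ), IsP p → (∀ t, p t ≤ 2 * Real.log n / n) → Ex p (ψ ξ) ≤ δ) ∧
      ∀ ξ A D, Good (piK n J x0 (ε / 260)) ξ → htLo (piK n J x0 (ε / 260)) ξ →
        (∃ Ab ⊆ sl ξ (kB J J), Absorbs Ab (KN (Fin n) ∩ sl ξ (kA J J))) →
        (∀ e ∈ D, (kA J J, e) ∉ ξ ∧ (kB J J, e) ∉ ξ) → htAdm n A D →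
        Pr (hz (hzs (ε / 2 * Real.log n / n) (lamL n J x0 (ε / 260)) (sig n J x0 (ε / 260)) ed3 ξ))
          (fun T => ¬ Dec (A ∪ (T ∪ sure (LsK J) ed3 ξ)) (KN (Fin n) \ D)) ≤ δ + ψ ξ A := by
  obtain ⟨n1, h1⟩ := all_NUMT ε hε hε1
  obtain ⟨n2, h2⟩ := all_LS
  obtain ⟨n3, h3⟩ := all_NUM0 (ε / 2) (ε / 520) (δ / 2) (by positivity) (by linarith)
    (by positivity) (by linarith) (by positivity)
  obtain ⟨c, c0, c1, c2, c3, c4⟩ : ∃ c : ℝ, 0 < c ∧ c ≤ 1 / 2800 ∧ c ≤ ε / 1040 ∧ c ≤ δ / 2 ∧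
      c ≤ Real.exp (-8000) / 8 :=
    ⟨min (min (1 / 2800) (ε / 1040)) (min (δ / 2) (Real.exp (-8000) / 8)), by positivity,
      (min_le_left _ _).trans (min_le_left _ _), (min_le_left _ _).trans (min_le_right _ _),
      (min_le_right _ _).trans (min_le_left _ _), (min_le_right _ _).trans (min_le_right _ _)⟩
  obtain ⟨n4, h4⟩ := ht_large c0
  refine ⟨max (max n1 n2) (max n3 n4), fun n hn hmod J x0 hP => ?_⟩
  simp only [max_le_iff] at hn
  obtain ⟨⟨hn1, hn2⟩, hn3, hn4⟩ := hn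
  have hT := h1 n hn1 J x0 hP
  obtain ⟨z1, z2, z3, z4⟩ := h4 n hn4
  have hc : Fintype.card (Fin n) = n := Fintype.card_fin n
  have hβ : piK n J x0 (ε / 260) (kA J 0) = Real.exp (-x0) / 200 := by
    rw [hT.piA 0 (Nat.zero_le _)]
    simp [xs]
  set β := Real.exp (-x0) / 200 with hβd
  set θ := Real.log n ^ (-(1 / 10) : ℝ) with hθd
  set L := Real.log n with hL
  have hn0 : (0 : ℝ) < n := by exact_mod_cast (show 0 < n by have := hT.cls; omega)
  have hn1' : (1 : ℝ) ≤ n := by exact_mod_cast (show 1 ≤ n by have := hT.cls; omega)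
  have θ0 : 0 ≤ θ := Real.rpow_nonneg (by linarith) _
  have β0 : 0 < β := by positivity
  have β1 : β ≤ 1 := hβ ▸ (hT.isP _).2
  have hsum0 : β ≤ ∑ k, piK n J x0 (ε / 260) k :=
    hβ ▸ single_le_sum (fun k _ => (hT.isP k).1) (mem_univ _)
  have hs2 := hT.sum2
  rw [← hθd] at hs2
  have βθ : β ≤ θ := by nlinarith
  have hninv : 1 / (n : ℝ) ≤ δ / 2 := by
    rw [div_le_iff₀ c0] at z4
    rw [div_le_iff₀ hn0]
    nlinarith
  obtain ⟨P, ok, b1, b2, b3⟩ := h3 n hn3 β hT.a0 β1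
  obtain ⟨x1, x2, x3, x4, x5⟩ := ht_ext ok hn1' θ0 b3 (by linarith)
  have hPQ : ∀ G R : Finset (Sym2 (Fin n)), IsP (tyP G R P.q) := fun G R t => by
    have := ok.q0
    have := ok.q1
    unfold tyP; split_ifs <;> constructor <;> linarith
  refine ⟨fun ξ A => Pr (tyP (KN (Fin n) \ Cls ξ (kA J 0)) (Cls ξ (kA J 0)) P.q)
    (fun Q => htBad (θ * Fintype.card (Fin n)) P.ds (L / 2000) (univ.biUnion (Cls ξ))
      (exc (KN (Fin n) \ Cls ξ (kA J 0)) (Cls ξ (kA J 0)) (P.k + 1) Q) A),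
    fun ξ A => Pr_nonneg (hPQ _ _) _, fun ξ p hp hpa => ?_, fun ξ A D hG hLo hA hDm hD => ?_⟩
  · unfold Pr
    rw [Ex_comm]
    refine (Ex_mono (hPQ _ _) (g := fun _ => δ) fun Q => ?_).trans (Ex_const _ _).le
    refine (ht_badP hp hpa (lam := 8000) (by norm_num) _ _).trans ?_
    rw [hc]
    have e1 : (n : ℝ) ^ 2 * Real.exp (2 * (θ * n + P.ds) * (2 * L / n) * (Real.exp 8000 - 1)
        - 8000 * (L / 2000)) ≤ 1 / n := by
      have f1 : 2 * (θ * n + P.ds) * (2 * L / n) ≤ 8 * θ * L := by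
        have : 2 * (θ * n + P.ds) * (2 * L / n) ≤ 2 * (θ * n + θ * n) * (2 * L / n) := by
          have := ok.ds
          gcongr
        refine this.trans (le_of_eq ?_)
        field_simp
        ring
      have f2 : 8 * θ * Real.exp 8000 ≤ 1 := by
        have : Real.exp (-8000) * Real.exp 8000 = 1 := by rw [← Real.exp_add]; simp
        nlinarith [Real.exp_pos 8000]
      have f3 : 0 ≤ 2 * (θ * n + P.ds) * (2 * L / n) := by positivity
      have f4 : 2 * (θ * n + P.ds) * (2 * L / n) * Real.exp 8000 ≤ 8 * θ * L * Real.exp 8000 :=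
        mul_le_mul_of_nonneg_right f1 (Real.exp_pos _).le
      have f5 : 8 * θ * Real.exp 8000 * L ≤ 1 * L := mul_le_mul_of_nonneg_right f2 (by linarith)
      have f6 : (n : ℝ) ^ 2 = Real.exp (2 * L) := by
        rw [two_mul, Real.exp_add, hL, Real.exp_log hn0, sq]
      have f7 : 1 / (n : ℝ) = Real.exp (-L) := by rw [Real.exp_neg, hL, Real.exp_log hn0, one_div]
      rw [f6, f7, ← Real.exp_add]
      exact Real.exp_le_exp.2 (by nlinarith)
    have e2 : (n : ℝ) * Real.exp (4 * (2 * L / n) * n * P.ds - θ * n) ≤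
        n * Real.exp (4 * P.qb * n * P.ds - θ * n) := by gcongr
    linarith
  set ξ' := htRm ξ D with hξ'
  have hG' : Good (piK n J x0 (ε / 260)) ξ' := ht_good hG hLo hD.deg (by rw [hc]; exact z3)
  have hcl : ∀ k, Cls ξ' k = Cls ξ k \ D := ht_cls ξ D
  have hcs : ∀ k, Cls ξ' k ⊆ Cls ξ k := fun k => hcl k ▸ sdiff_subset
  obtain ⟨Ab, hA1, hA2⟩ := hA
  obtain ⟨d1, -, d3⟩ := all_GOODC (Fin n) (2 * J + 2) (piK n J x0 (ε / 260)) ξ
  obtain ⟨d3, -⟩ := d3 hT.isP hG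
  obtain ⟨c1', c2', c3'⟩ := all_GOODC (Fin n) (2 * J + 2) (piK n J x0 (ε / 260)) ξ'
  obtain ⟨c3', -⟩ := c3' hT.isP hG'
  rw [hc] at c3' d3
  have hAC : Ab ⊆ Cls ξ' (kB J J) := fun e he => by
    have := topg_C J ξ hA1 hA2.1 hA2.2.1 he
    rw [hcl]
    exact Finset.mem_sdiff.2 ⟨this, fun h => (hDm e h).2 (goodc_mem.1 this).2.1⟩
  have hX : Cls ξ' (kA J J) = Cls ξ (kA J J) := by
    rw [hcl]
    exact Finset.sdiff_eq_self_of_disjoint
      (disjoint_left.2 fun e he h => (hDm e h).1 (goodc_mem.1 he).2.1)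
  rw [topg_X, ← hX] at hA2
  obtain ⟨g, hl, g0, hl0, hs, g1, g2, hl1⟩ := all_HAZ n J x0 ε hε hP.J1 hT ξ
  set U : Finset (Sym2 (Fin n)) := Ab ∪ (range (J + 1)).biUnion (fun i => Cls ξ' (kA J i))
    ∪ (range J).biUnion (fun i => Cls ξ' (kB J i)) with hU
  set W := KN (Fin n) \ D with hW
  have hUk : ∀ e ∈ U, ∃ k, e ∈ Cls ξ' k := by
    intro e he
    simp only [hU, mem_union, mem_biUnion] at he
    rcases he with (he | ⟨i, -, he⟩) | ⟨i, -, he⟩
    exacts [⟨_, hAC he⟩, ⟨_, he⟩, ⟨_, he⟩]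
  have hUK : U ⊆ W := fun e he => by
    obtain ⟨k, hk⟩ := hUk e he
    exact Finset.mem_sdiff.2 ⟨mem_KN.2 ((c1' k).1 e hk), (Finset.mem_sdiff.1 (hcl k ▸ hk)).2⟩
  have dA : ∀ i ≤ J, Disjoint (W \ U) (Cls ξ' (kA J i)) := fun i hi =>
    sdiff_disjoint.mono_right fun e he => by
      simp only [hU, mem_union, mem_biUnion]
      exact Or.inl (Or.inr ⟨i, mem_range.2 (by omega), he⟩)
  have dB : ∀ i < J, Disjoint (W \ U) (Cls ξ' (kB J i)) := fun i hi =>
    sdiff_disjoint.mono_right fun e he => by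
      simp only [hU, mem_union, mem_biUnion]
      exact Or.inr ⟨i, mem_range.2 hi, he⟩
  have dC : Disjoint (W \ U) Ab :=
    sdiff_disjoint.mono_right fun e he => by
      simp only [hU, mem_union]
      exact Or.inl (Or.inl he)
  have hsp : (2 + ε / 2) * L / n = 2 * L / n + ε / 2 * L / n := by ring
  have q0 : 0 ≤ ε / 2 * L / n := by positivity
  have g0' : ∀ t, 0 ≤ g t - 2 * L / n := fun t => by linarith [g1 t]
  have hGs : NoLoop (KN (Fin n) \ Cls ξ (kA J 0)) := fun e he =>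
    mem_KN.1 (Finset.mem_sdiff.1 he).1
  have l0 := ht_zero (W \ U) (KN (Fin n) \ Cls ξ (kA J 0)) (Cls ξ (kA J 0)) D
    (univ.biUnion (Cls ξ)) A hGs (d1 _).1 sdiff_disjoint
    (fun e he => by
      have k1 := Finset.mem_sdiff.1 (Finset.mem_sdiff.1 he).1
      refine Finset.mem_sdiff.2 ⟨k1.1, fun h => disjoint_left.1 (dA 0 (Nat.zero_le _)) he ?_⟩
      rw [hcl]
      exact Finset.mem_sdiff.2 ⟨h, k1.2⟩)
    (fun e he => by
      by_cases k1 : e ∈ D
      · exact mem_union_right _ k1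
      refine mem_union_left _ ?_
      by_cases k2 : e ∈ U
      · obtain ⟨k, hk⟩ := hUk e k2
        exact mem_union_right _ (mem_biUnion.2 ⟨k, mem_univ _, hcs k hk⟩)
      · exact mem_union_left _ (Finset.mem_sdiff.2 ⟨Finset.mem_sdiff.2 ⟨he, k1⟩, k2⟩))
    hD.deg θ β (L / 2000) P (by rw [hc]; exact ok) (by linarith)
    (by
      rw [hc]
      have : 0 ≤ 2 * n * ∑ k, piK n J x0 (ε / 260) k := by
        have := β0.le.trans hsum0
        positivity
      linarith)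
    (by linarith) (by rw [hc]; exact x3)
    (fun v => by
      rw [hc]
      have k1 : nb (univ.biUnion (Cls ξ)) v ⊆ univ.biUnion fun k => nb (Cls ξ k) v := by
        intro w hw
        obtain ⟨k, -, hk⟩ := mem_biUnion.1 (mem_nb.1 hw)
        exact mem_biUnion.2 ⟨k, mem_univ _, mem_nb.2 hk⟩
      have k2 : ((nb (univ.biUnion (Cls ξ)) v).card : ℝ) ≤ ∑ k, ((nb (Cls ξ k) v).card : ℝ) := by
        exact_mod_cast (card_le_card k1).trans card_biUnion_le
      have k3 := sum_le_sum fun k (_ : k ∈ univ) => (d3 k k (hT.two _ _)).1 v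
      rw [← mul_sum] at k3
      linarith)
    (fun v => by rw [hc, ← hβ]; exact (d3 _ (kA J 0) (hT.two _ _)).1 v)
    (fun u v huv => by
      have := (abs_le.1 (goodc_two hG (kA J 0) (kA J 0) (by rw [hc]; exact hT.two _ _) huv)).1
      rw [hβ] at this
      rw [sq]
      linarith)
    (fun u v huv => by
      have := ((c3' (kA J 0) (kA J 0) (hT.two _ _)).2 u v huv).1
      rw [hβ, hcl, ← sq] at this
      rw [hc]
      exact this)
    (fun e he => by
      have k1 := Finset.mem_sdiff.1 (Finset.mem_sdiff.1 he).1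
      have k2 := not_le.1 fun h => k1.2 (hD.low e k1.1 h)
      linarith)
    (fun t => g t - 2 * L / n) g0'
    (fun t _ => by rw [hc]; linarith [g1 t])
    (fun t ht => by
      have k1 := g2 _ hGs t ht
      have k2 : 2 * L / n ≤ ε / 520 * L / (n * β ^ 2) := by
        rw [div_le_div_iff₀ hn0 (by positivity)]
        have k3 : β ^ 2 ≤ ε / 1040 := by nlinarith
        have k4 : 0 ≤ L * n := by positivity
        nlinarith
      have k3 : ε / 260 * L / (n * β ^ 2) = 2 * (ε / 520 * L / (n * β ^ 2)) := by ring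
      linarith)
  rw [← hcl] at l0
  have l1 : ∀ i < J, ∀ A' ⊆ Cls ξ' (kA J i), Pr (hz (hl i)) (fun T => ¬ ∃ W ⊆ Cls ξ' (kA J (i + 1)),
      Dec T (A' ∪ Cls ξ' (kB J i) ∪ W)) ≤ 1 / (n : ℝ) ^ 2 := by
    intro i hi A' hA'
    obtain ⟨k1, k2⟩ := hl1 i hi A' (hA'.trans (hcs _))
    have := h2 (Fin n) (by rw [hc]; exact hn2) (xs x0 i) (by rw [hc]; exact (hT.rng i hi).1)
      (by rw [hc]; exact (hT.rng i hi).2) A' _ _ (all_LGC n J x0 ε hT ξ' hG' i hi A' hA') (hl i)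
      (hl0 i) (by rw [hc]; exact fun t ht => k1 t (tri_mono (union_subset_union_right (hcs _)) ht))
      (by
        rw [hc]
        exact fun t ht => k2 t (ht_ty_mono (union_subset_union_right (hcs _)) (hcs _) ht))
    rwa [hc] at this
  have hs' : ∀ t, g t - 2 * L / n + ∑ i ∈ range J, hl i t ≤
      hzs (ε / 2 * L / n) (lamL n J x0 (ε / 260)) (sig n J x0 (ε / 260)) ed3 ξ t := fun t => by
    have := hs t
    unfold hzs at this ⊢
    linarith
  have key := ht_chain (Fin n) J (fun i => Cls ξ' (kA J i)) (fun i => Cls ξ' (kB J i)) (W \ U) Ab W A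
    (fun i hi j hj h => c2' _ _ (topg_AA hi hj h))
    (fun i hi j hj h => c2' _ _ (topg_BB hi.le hj.le h))
    (fun i _ j _ => c2' _ _ (topg_AB J i j))
    (fun i hi => ⟨dA i hi, (c2' _ _ (topg_AB J i J).symm).mono_left hAC⟩)
    (fun j hj => ⟨dB j hj, (c2' _ _ (topg_BB le_rfl hj.le hj.ne')).mono_left hAC⟩)
    dC (by rw [union_assoc, union_assoc, ← union_assoc Ab, ← hU, sdiff_union_of_subset hUK])
    (Dv_sdiff (Dv_KN (by rw [hc]; exact hmod)) hD.dv hD.sub) hA2 _ _ hl g0' hl0 hs' _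
    (1 / (n : ℝ) ^ 2) (by positivity) l0 l1
  have hp := hz_isP fun t => le_trans (add_nonneg (g0' t) (sum_nonneg fun i _ => hl0 i t)) (hs' t)
  have hsub : tri (Ab ∪ Cls ξ' (kA J J)) ⊆ sure (LsK J) ed3 ξ := by
    intro t ht
    obtain ⟨t3, ht⟩ := mem_tri.1 ht
    have e3 : ed3 t = ed t := if_pos t3
    have e4 : t ∈ sure (LsK J) ed3 ξ ↔ (ed3 t).card = 3 ∧ ∀ e ∈ ed3 t, LsK J (st ξ e) := by
      simp only [sure, Finset.mem_filter, mem_univ, true_and]
    rw [e4, e3]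
    refine ⟨card_ed t3, fun e he => ?_⟩
    rcases mem_union.1 (ht he) with h | h
    · exact Or.inr ((d1 _).2.2 e (hcs _ (hAC h)))
    · exact Or.inl ((d1 _).2.2 e (hcs _ h))
  refine (Pr_mono hp fun T hT' hD => hT' (Dec_mono
    (union_subset_union_right (union_subset_union_right hsub)) hD)).trans (key.trans ?_)
  have hJ : (J : ℝ) ≤ n := by exact_mod_cast (show J ≤ n by have := hT.cls; omega)
  have e5 : (J : ℝ) * (1 / (n : ℝ) ^ 2) ≤ 1 / n := by
    rw [mul_one_div, div_le_div_iff₀ (by positivity) hn0]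
    nlinarith
  have e6 : P.bd (Fintype.card (Fin n)) θ β ≤ δ / 2 := by rw [hc]; exact b3
  linarith

end Pool.Agent.P.MP_224820_co.St
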